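import Pool.Agent.MP_b9f959_al.H73.Defs

namespace Pool.Agent.MP_b9f959_al.H73

open Subgroup hiding subset_closure map_eq_bot_iff upperCentralSeries mem_upperCentralSeries_succ_iff
  lowerCentralSeries_succ upperCentralSeries_zero lowerCentralSeries closure
open scoped commutatorElement

universe u
variable {G : Type u} [Group G]

/-- Centralizer of a set modulo a normal subgroup. -/
def D (N : Subgroup G) [N.Normal] (X : Set G) : Subgroup G :=
  (centralizer ((QuotientGroup.mk' N) '' X)).comap (QuotientGroup.mk' N)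

theorem mem_D {N : Subgroup G} [N.Normal] {X : Set G} {g : G} :
    g ∈ D N X ↔ ∀ x ∈ X, ⁅g, x⁆ ∈ N := by
  unfold D
  rw [mem_comap, mem_centralizer_iff]
  constructor
  · intro h x hx
    have := h _ ⟨x, hx, rfl⟩
    rw [← QuotientGroup.eq_one_iff (N := N), ← QuotientGroup.mk'_apply, map_commutatorElement,
      commutatorElement_eq_one_iff_mul_comm]
    exact this.symm
  · rintro h _ ⟨x, hx, rfl⟩
    have := h x hx
    rw [← QuotientGroup.eq_one_iff (N := N), ← QuotientGroup.mk'_apply, map_commutatorElement,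
      commutatorElement_eq_one_iff_mul_comm] at this
    exact this.symm

theorem comm_mem_symm {N : Subgroup G} {a b : G} (h : ⁅a, b⁆ ∈ N) : ⁅b, a⁆ ∈ N := by
  rw [← commutatorElement_inv]; exact N.inv_mem h

theorem subset_D_comm {N : Subgroup G} [N.Normal] {X Y : Set G} :
    X ⊆ D N Y ↔ Y ⊆ D N X := by
  constructor
  · intro h y hy
    exact mem_D.2 fun x hx => comm_mem_symm (mem_D.1 (h hx) y hy)
  · intro h y hy
    exact mem_D.2 fun x hx => comm_mem_symm (mem_D.1 (h hx) y hy)

theorem D_anti {N : Subgroup G} [N.Normal] {X Y : Set G} (h : X ⊆ Y) : D N Y ≤ D N X :=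
  fun _ hg => mem_D.2 fun x hx => mem_D.1 hg x (h hx)

theorem D_mono_left {N M : Subgroup G} [N.Normal] [M.Normal] (h : N ≤ M) (X : Set G) :
    D N X ≤ D M X :=
  fun _ hg => mem_D.2 fun x hx => h (mem_D.1 hg x hx)

theorem D_closure {N : Subgroup G} [N.Normal] (X : Set G) : D N (Subgroup.closure X) = D N X := by
  apply le_antisymm (D_anti Subgroup.subset_closure)
  have : (D N X : Set G) ⊆ D N (Subgroup.closure X : Set G) := by
    rw [subset_D_comm]
    have : Subgroup.closure X ≤ D N (D N X) := by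
      rw [closure_le, subset_D_comm]
    exact this
  exact this

theorem le_D_iff {N : Subgroup G} [N.Normal] {H K : Subgroup G} :
    H ≤ D N K ↔ ⁅H, K⁆ ≤ N := by
  rw [commutator_le]
  exact ⟨fun h g hg x hx => mem_D.1 (h hg) x hx, fun h g hg => mem_D.2 (h g hg)⟩

theorem D_sup {N : Subgroup G} [N.Normal] (H K : Subgroup G) :
    D N H ⊓ D N K ≤ D N (H ⊔ K : Subgroup G) := by
  rw [sup_eq_closure, D_closure]
  intro g hg
  refine mem_D.2 ?_
  rintro x (hx | hx)
  · exact mem_D.1 hg.1 x hx
  · exact mem_D.1 hg.2 x hx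

theorem D_bot (X : Set G) : D ⊥ X = centralizer X := by
  ext g
  rw [mem_D, mem_centralizer_iff]
  refine forall₂_congr fun x _ => ?_
  rw [mem_bot, commutatorElement_eq_one_iff_mul_comm, eq_comm]

theorem normalizer_le_normalizer_D {N : Subgroup G} [hN : N.Normal] (X : Set G) :
    normalizer X ≤ normalizer (D N X : Set G) := by
  rw [le_normalizer_iff]
  intro u hu g hg
  refine mem_D.2 fun x hx => ?_
  have hx' : u⁻¹ * x * u ∈ X := by
    have := (mem_set_normalizer_iff.1 (inv_mem hu) x).1 hx
    simpa using this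
  have := hN.conj_mem _ (mem_D.1 hg _ hx') u
  convert this using 1
  simp only [commutatorElement_def]; group

/-- Three subgroups lemma modulo a normal subgroup. -/
theorem three {N : Subgroup G} [N.Normal] {A B C : Subgroup G}
    (h1 : ⁅⁅B, C⁆, A⁆ ≤ N) (h2 : ⁅⁅C, A⁆, B⁆ ≤ N) : ⁅⁅A, B⁆, C⁆ ≤ N := by
  have key : ∀ K : Subgroup G, K ≤ N ↔ K.map (QuotientGroup.mk' N) = ⊥ := by
    intro K
    rw [Subgroup.map_eq_bot_iff, QuotientGroup.ker_mk']
  rw [key] at h1 h2 ⊢
  simp only [map_commutator] at h1 h2 ⊢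
  exact commutator_commutator_eq_bot_of_rotate h1 h2

abbrev Z (G : Type u) [Group G] (n : ℕ) : Subgroup G := Subgroup.upperCentralSeries G n

theorem Z_zero : Z G 0 = ⊥ := rfl

theorem Z_mono : Monotone (Z G) := Subgroup.upperCentralSeries_mono G

theorem Z_succ (n : ℕ) : Z G (n + 1) = D (Z G n) ((⊤ : Subgroup G) : Set G) := by
  ext g
  rw [Subgroup.mem_upperCentralSeries_succ_iff, mem_D]
  simp

theorem Z_succ_le_D (n : ℕ) (X : Set G) : Z G (n + 1) ≤ D (Z G n) X := by
  rw [Z_succ]; exact D_anti (by simp)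

theorem comm_Z_succ (n : ℕ) (H : Subgroup G) : ⁅Z G (n + 1), H⁆ ≤ Z G n :=
  le_D_iff.1 (Z_succ_le_D (G := G) n (H : Set G))

/-- `[Z_{m+i+1}, γ_{i+1}] ≤ Z_m`. -/
theorem comm_Z_lcs (i : ℕ) : ∀ m : ℕ,
    ⁅Z G (m + i + 1), (⊤ : Subgroup G).lowerCentralSeries i⁆ ≤ Z G m := by
  induction i with
  | zero => intro m; exact comm_Z_succ m ⊤
  | succ i ih =>
    intro m
    rw [Subgroup.lowerCentralSeries_succ, commutator_comm]
    apply three
    · refine le_trans (commutator_mono ?_ le_rfl) (ih m)
      rw [commutator_comm]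
      exact comm_Z_succ (m + i + 1) ⊤
    · refine le_trans (commutator_mono ?_ le_rfl) (comm_Z_succ m ⊤)
      have := ih (m + 1)
      rwa [show m + 1 + i + 1 = m + (i + 1) + 1 by ring] at this

theorem comm_Z_lcs' (i m : ℕ) (H : Subgroup G) :
    ⁅Z G (m + i + 1), H.lowerCentralSeries i⁆ ≤ Z G m :=
  le_trans (commutator_mono le_rfl (lowerCentralSeries_mono i le_top)) (comm_Z_lcs i m)

theorem comm_D_lcs (H : Subgroup G) (i : ℕ) : ∀ m : ℕ,
    ⁅D (Z G (m + i)) H, H.lowerCentralSeries i⁆ ≤ Z G m := by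
  induction i with
  | zero => intro m; exact le_D_iff.1 le_rfl
  | succ i ih =>
    intro m
    rw [Subgroup.lowerCentralSeries_succ, commutator_comm]
    apply three
    · refine le_trans (commutator_mono ?_ le_rfl) (comm_Z_lcs' i m H)
      rw [commutator_comm]
      exact le_D_iff.1 le_rfl
    · refine le_trans (commutator_mono ?_ le_rfl) (comm_Z_succ m H)
      have := ih (m + 1)
      rwa [show m + 1 + i = m + (i + 1) by ring] at this

/-- Bryant-type lemma. -/
theorem lemmaB {H H' : Subgroup G} (hle : H ≤ H') (j : ℕ)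
    (hlow : ∀ m < j, D (Z G m) H ≤ Z G (m + 1))
    (hc : centralizer (H.lowerCentralSeries j : Set G) ≤
      centralizer (H'.lowerCentralSeries j : Set G)) :
    D (Z G j) H ≤ D (Z G j) H' := by
  have Q : ∀ t i : ℕ, t + i = j → ⁅D (Z G j) H, H'.lowerCentralSeries i⁆ ≤ Z G t := by
    intro t
    induction t with
    | zero =>
      intro i hi
      obtain rfl : i = j := by omega
      have h1 := comm_D_lcs H i 0
      rw [zero_add, Z_zero, le_bot_iff, commutator_eq_bot_iff_le_centralizer] at h1
      rw [Z_zero, le_bot_iff, commutator_eq_bot_iff_le_centralizer]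
      exact h1.trans hc
    | succ t ih =>
      intro i hi
      refine le_trans ?_ (hlow t (by omega))
      rw [le_D_iff]
      apply three
      · rw [commutator_comm]
        refine le_trans (commutator_mono le_rfl ?_) (ih (i + 1) (by omega))
        rw [Subgroup.lowerCentralSeries_succ]
        exact commutator_mono le_rfl hle
      · refine le_trans (commutator_mono ?_ le_rfl) (comm_Z_lcs' i t H')
        rw [commutator_comm, show t + i + 1 = j by omega]
        exact le_D_iff.1 le_rfl
  exact le_D_iff.2 (Q j 0 rfl)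

end Pool.Agent.MP_b9f959_al.H73
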