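import Mathlib

namespace Pool.Agent.MP_b9f959_al.H73

universe u

/-- The commutator `[a, x] = a⁻¹ x⁻¹ a x`. -/
def cm {G : Type u} [Group G] (a x : G) : G := a⁻¹ * x⁻¹ * a * x

/-- The left-normed commutator `[a, ₙ x]`. -/
def engel {G : Type u} [Group G] (a x : G) : ℕ → G
  | 0 => a
  | n + 1 => cm (engel a x n) x

/-- The minimal condition on centralizers. -/
def IsMc (G : Type u) [Group G] : Prop :=
  ∀ X : Set G, ∃ X₀ : Set G, X₀ ⊆ X ∧ X₀.Finite ∧
    Subgroup.centralizer X = Subgroup.centralizer X₀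

/-- The set `R(G)` of right Engel elements. -/
def rightEngel (G : Type u) [Group G] : Set G :=
  {a | ∀ x : G, ∃ n : ℕ, engel a x n = 1}

/-- `H` is ascendant in `K`: an ordinal-indexed chain from `H` to `K`, each term normal in the
next one, with unions at limit ordinals. -/
def IsAscendant {G : Type u} [Group G] (H K : Subgroup G) : Prop :=
  ∃ (α : Ordinal.{u}) (c : Ordinal.{u} → Subgroup G), c 0 = H ∧ c α = K ∧
    (∀ β < α, c β ≤ c (β + 1) ∧ ((c β).subgroupOf (c (β + 1))).Normal) ∧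
    (∀ l ≤ α, Order.IsSuccLimit l → (c l : Set G) = ⋃ β < l, (c β : Set G))

/-- The set `ϱ(G)`. -/
def rho (G : Type u) [Group G] : Set G :=
  {a | ∀ x : G, IsAscendant (Subgroup.zpowers x)
    (Subgroup.zpowers x ⊔ Subgroup.normalClosure {a})}

end Pool.Agent.MP_b9f959_al.H73
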