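import Pool.Agent.MP_b9f959_al.H73.Main

namespace Pool.Agent.MP_b9f959_al.H73

open Subgroup hiding subset_closure map_eq_bot_iff upperCentralSeries mem_upperCentralSeries_succ_iff
  lowerCentralSeries_succ upperCentralSeries_zero lowerCentralSeries closure closure_mono
  lowerCentralSeries_antitone lowerCentralSeries_zero
open scoped commutatorElement

universe u
variable {G : Type u} [Group G] {E : Set G}

theorem mem_centralizer_map {K : Subgroup G} {H : Subgroup K} {c : K} :
    c ∈ centralizer (H : Set K) ↔ (c : G) ∈ centralizer ((H.map K.subtype : Subgroup G) : Set G) := by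
  rw [mem_centralizer_iff, mem_centralizer_iff]
  constructor
  · rintro h _ ⟨x, hx, rfl⟩
    exact congrArg Subtype.val (h x hx)
  · intro h x hx
    exact Subtype.ext (h x ⟨x, hx, rfl⟩)

/-- In a group with the minimal condition on centralizers every normal set of left Engel elements
generates a locally nilpotent subgroup. -/
theorem mainThm (hG : IsMc G) (hE : EngelSet E) : LNil (Subgroup.closure E) := by
  by_contra hcon
  obtain ⟨⟨K₀, i₀⟩, hK₀, hmax⟩ := hG.exists_max {p : Subgroup G × ℕ | EG E p.1 ∧ ¬ LNil p.1}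
    ⟨(Subgroup.closure E, 0), eg_closure subset_rfl, hcon⟩
    (fun p => (p.1.lowerCentralSeries p.2 : Set G))
  have hlev : ∀ n, ∃ K : Subgroup G, (EG E K ∧ ¬ LNil K) ∧ K ≤ K₀ ∧ ∀ i < n, ∀ K' : Subgroup G,
      (EG E K' ∧ ¬ LNil K') → K' ≤ K → centralizer (K'.lowerCentralSeries i : Set G) ≤
        centralizer (K.lowerCentralSeries i : Set G) := by
    intro n
    induction n with
    | zero => exact ⟨K₀, hK₀, le_rfl, by simp⟩
    | succ n ih =>
      obtain ⟨K, hK, hKK, h⟩ := ih
      obtain ⟨K₁, ⟨hK₁, hle⟩, hm⟩ := hG.exists_max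
        {K' : Subgroup G | (EG E K' ∧ ¬ LNil K') ∧ K' ≤ K} ⟨K, hK, le_rfl⟩
        (fun K' => (K'.lowerCentralSeries n : Set G))
      refine ⟨K₁, hK₁, hle.trans hKK, fun i hi K' hK' hle' => ?_⟩
      rcases Nat.lt_succ_iff_lt_or_eq.1 hi with hi | rfl
      · exact (h i hi K' hK' (hle'.trans hle)).trans
          (centralizer_le (lowerCentralSeries_mono i hle))
      · exact hm K' ⟨hK', hle'.trans hle⟩ (centralizer_le (lowerCentralSeries_mono i hle'))
  obtain ⟨K, hK, hKK, hlow⟩ := hlev i₀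
  obtain ⟨T, hT, hTS, hTn⟩ : ∃ T : Set G, T.Finite ∧ T ⊆ E ∩ K ∧ ¬ Nil (Subgroup.closure T) := by
    by_contra h
    push Not at h
    exact hK.2 (hK.1.eq ▸ lnil_closure h)
  set G₁ := Subgroup.closure T with hG₁
  have hG₁K : G₁ ≤ K := (closure_le _).2 (hTS.trans Set.inter_subset_right)
  have hG₁n : ¬ LNil G₁ := fun h => hTn (h T hT Subgroup.subset_closure)
  have hhigh : ∀ K' : Subgroup G, (EG E K' ∧ ¬ LNil K') → K' ≤ G₁ → ∀ i ≥ i₀,
      centralizer (K'.lowerCentralSeries i : Set G) ≤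
        centralizer (G₁.lowerCentralSeries i₀ : Set G) := by
    intro K' hK' hle i hi
    refine (hmax (K', i) hK' (centralizer_le ?_)).trans
      (centralizer_le (lowerCentralSeries_mono i₀ (hG₁K.trans hKK)))
    exact (K'.lowerCentralSeries_antitone hi).trans
      (lowerCentralSeries_mono i₀ (hle.trans (hG₁K.trans hKK)))
  have htop : (⊤ : Subgroup G₁).map G₁.subtype = G₁ := by
    rw [← MonoidHom.range_eq_map, range_subtype]
  have hS : Setup (G := G₁) (G₁.subtype ⁻¹' E) i₀ := by
    refine ⟨hG.subgroup G₁, ⟨fun e he g => hE.conj e he g, fun e he g => ?_⟩,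
      ⟨G₁.subtype ⁻¹' T, hT.preimage G₁.subtype_injective.injOn,
        Set.preimage_mono (hTS.trans Set.inter_subset_left), ?_⟩, ?_, ?_, ?_⟩
    · obtain ⟨n, hn⟩ := hE.eng e he g
      refine ⟨n, G₁.subtype_injective ?_⟩
      rw [map_engel, map_one]; exact hn
    · rw [closure_preimage_subtype Subgroup.subset_closure, subgroupOf_self]
    · intro h
      exact hG₁n (htop ▸ h.map G₁.subtype)
    · intro K' hK' hn i c hc
      have hb : EG E (K'.map G₁.subtype) ∧ ¬ LNil (K'.map G₁.subtype) := by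
        refine ⟨?_, fun h => hn (h.of_map G₁.subtype_injective)⟩
        rw [← hK'.eq, MonoidHom.map_closure]
        apply eg_closure
        rintro _ ⟨e, he, rfl⟩
        exact he.1
      have hle : K'.map G₁.subtype ≤ G₁ := map_subtype_le K'
      rw [mem_centralizer_map, map_lowerCentralSeries] at hc ⊢
      rw [htop]
      rcases lt_or_ge i i₀ with hi | hi
      · exact centralizer_le (lowerCentralSeries_mono i hG₁K) (hlow i hi _ hb (hle.trans hG₁K) hc)
      · exact centralizer_le (G₁.lowerCentralSeries_antitone hi) (hhigh _ hb hle i hi hc)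
    · intro i hi c hc
      rw [mem_centralizer_map, map_lowerCentralSeries, htop] at hc ⊢
      exact hhigh G₁ ⟨eg_closure (hTS.trans Set.inter_subset_left), hG₁n⟩ le_rfl i hi hc
  exact hS.false

theorem exists_Z2 (hG : IsMc G) (hl : LNil (⊤ : Subgroup G)) (hc : ¬ (⊤ : Subgroup G) ≤ Z G 1) :
    ∃ y ∈ Z G 2, y ∉ Z G 1 := by
  obtain ⟨X₁, hX₁, h1⟩ := hG.exists_min {X : Set G | X.Finite} ⟨∅, Set.finite_empty⟩
    (fun X => ((Subgroup.closure X : Subgroup G) : Set G))
  obtain ⟨X₂, ⟨hX₂, hle⟩, h2⟩ := hG.exists_min {X : Set G | X.Finite ∧ X₁ ⊆ X}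
    ⟨X₁, hX₁, subset_rfl⟩ (fun X => ((Subgroup.closure X).lowerCentralSeries 1 : Set G))
  have h0 : D (Z G 0) (Subgroup.closure X₂ : Subgroup G) ≤ Z G 1 := by
    rw [Z_succ]
    refine lemmaB le_top 0 (by simp) fun c hc => mem_centralizer_iff.2 fun g _ => ?_
    have := h1 (insert g X₁) (Set.Finite.insert g hX₁)
      (centralizer_le (Subgroup.closure_mono (Set.subset_insert g X₁)))
      (centralizer_le (Subgroup.closure_mono hle) hc)
    exact mem_centralizer_iff.1 this g (Subgroup.subset_closure (Set.mem_insert g X₁))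
  have h1' : D (Z G 1) (Subgroup.closure X₂ : Subgroup G) ≤ Z G 2 := by
    rw [Z_succ 1]
    refine lemmaB le_top 1 (fun m hm => by rw [show m = 0 by omega]; exact h0) fun c hc => ?_
    change c ∈ centralizer ((⁅(⊤ : Subgroup G), (⊤ : Subgroup G)⁆ : Subgroup G) : Set G)
    rw [Subgroup.commutator_def, centralizer_closure]
    refine mem_centralizer_iff.2 ?_
    rintro _ ⟨a, -, b, -, rfl⟩
    have hsub : X₂ ⊆ insert a (insert b X₂) :=
      (Set.subset_insert b X₂).trans (Set.subset_insert a _)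
    have := h2 (insert a (insert b X₂)) ⟨(hX₂.insert b).insert a, hle.trans hsub⟩
      (centralizer_le (lowerCentralSeries_mono 1 (Subgroup.closure_mono hsub))) hc
    exact mem_centralizer_iff.1 this _ (commutator_mem_commutator
      (Subgroup.subset_closure (Set.mem_insert _ _))
      (Subgroup.subset_closure (Set.mem_insert_of_mem _ (Set.mem_insert _ _))))
  by_cases hH : Subgroup.closure X₂ ≤ Z G 1
  · exfalso
    apply hc
    refine le_trans ?_ h0
    rw [le_D_iff, commutator_comm]
    exact le_trans (commutator_mono hH le_rfl) (comm_Z_succ 0 ⊤)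
  · obtain ⟨z, -, hz1, hz2⟩ := exists_center_mod (hl X₂ hX₂ (by simp)) hH
    exact ⟨z, h1' hz2, hz1⟩

theorem solvable_of_lnil (hG : IsMc G) (hl : LNil (⊤ : Subgroup G)) : Group.IsSolvable G := by
  by_contra hcon
  obtain ⟨Y, hY, hmin⟩ := hG.exists_min {Y : Set G | ¬ Group.IsSolvable (centralizer Y)}
    ⟨∅, by
      intro h
      apply hcon
      refine Group.isSolvable_of_surjective (f := (centralizer (∅ : Set G)).subtype) fun g => ?_
      exact ⟨⟨g, mem_centralizer_iff.2 (by simp)⟩, rfl⟩⟩ id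
  apply hY
  set C := centralizer Y with hC
  have hCl : LNil (⊤ : Subgroup C) := LNil.of_map C.subtype_injective (hl.mono le_top)
  by_cases hc : (⊤ : Subgroup C) ≤ Z C 1
  · apply Group.isSolvable_of_comm
    intro a b
    have : a ∈ Subgroup.upperCentralSeries C 1 := hc trivial
    rw [Subgroup.upperCentralSeries_one] at this
    exact (mem_center_iff.1 this b).symm
  obtain ⟨y, hy2, hy1⟩ := exists_Z2 (hG.subgroup C) hCl hc
  have hle : centralizer (insert (y : G) Y) ≤ C := centralizer_le (Set.subset_insert _ _)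
  have hsol : Group.IsSolvable (centralizer (insert (y : G) Y)) := by
    by_contra hns
    have := hmin _ hns hle
    apply hy1
    change y ∈ Subgroup.upperCentralSeries C 1
    rw [Subgroup.upperCentralSeries_one, mem_center_iff]
    intro g
    exact Subtype.ext (mem_centralizer_iff.1 (this g.2) y (Set.mem_insert _ _)).symm
  refine Group.isSolvable_of_ker_le_range (inclusion hle) (Abelianization.of (G := C)) ?_
  rw [Abelianization.ker_of]
  intro g hg
  have h1 : ⁅y, g⁆ ∈ Z C 0 := comm_Z_lcs (G := C) 1 0 (commutator_mem_commutator hy2 hg)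
  rw [Z_zero, mem_bot, commutatorElement_eq_one_iff_mul_comm] at h1
  refine ⟨⟨g, mem_centralizer_iff.2 ?_⟩, rfl⟩
  rintro x (rfl | hx)
  · exact congrArg Subtype.val h1
  · exact mem_centralizer_iff.1 g.2 x hx

/-! Ascendant subgroups. -/

theorem chain_mono {α : Ordinal.{u}} {c : Ordinal.{u} → Subgroup G}
    (h1 : ∀ β < α, c β ≤ c (β + 1) ∧ ((c β).subgroupOf (c (β + 1))).Normal)
    (h2 : ∀ l ≤ α, Order.IsSuccLimit l → (c l : Set G) = ⋃ β < l, (c β : Set G)) :
    ∀ β ≤ α, ∀ γ ≤ β, c γ ≤ c β := by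
  intro β
  induction β using Ordinal.limitRecOn with
  | zero => intro _ γ hγ; rw [nonpos_iff_eq_zero.1 hγ]
  | add_one β ih =>
    intro hβ γ hγ
    have hβ' : β < α := lt_of_lt_of_le (lt_add_one β) hβ
    rcases hγ.lt_or_eq with h | rfl
    · exact (ih hβ'.le γ (Order.lt_add_one_iff.1 h)).trans (h1 β hβ').1
    · exact le_rfl
  | limit l hl _ =>
    intro hβ γ hγ
    rcases hγ.lt_or_eq with h | rfl
    · intro x hx
      have : x ∈ (c l : Set G) := by
        rw [h2 l hβ hl]; exact Set.mem_iUnion₂.2 ⟨γ, h, hx⟩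
      exact this
    · exact le_rfl

theorem asc_refl (H : Subgroup G) : IsAscendant H H :=
  ⟨0, fun _ => H, rfl, rfl, by simp, fun l hl h => by
    rw [nonpos_iff_eq_zero.1 hl] at h
    exact absurd h Order.not_isSuccLimit_bot⟩

theorem IsAscendant.trans {H K M : Subgroup G} (h1 : IsAscendant H K) (h2 : IsAscendant K M) :
    IsAscendant H M := by
  classical
  obtain ⟨α₁, c₁, h10, h1α, h1s, h1l⟩ := h1
  obtain ⟨α₂, c₂, h20, h2α, h2s, h2l⟩ := h2
  let c : Ordinal.{u} → Subgroup G := fun β => if β ≤ α₁ then c₁ β else c₂ (β - α₁)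
  have hle : ∀ β ≤ α₁, c β = c₁ β := fun β hβ => if_pos hβ
  have hge : ∀ γ, c (α₁ + γ) = c₂ γ := by
    intro γ
    by_cases h : α₁ + γ ≤ α₁
    · have : γ = 0 := by simpa using h
      rw [this, add_zero, hle _ le_rfl, h1α, h20]
    · simp only [c]
      rw [if_neg h, Ordinal.add_sub_cancel]
  refine ⟨α₁ + α₂, c, by rw [hle 0 (by simp), h10], by rw [hge, h2α], fun β hβ => ?_,
    fun l hl hlim => ?_⟩
  · rcases lt_or_ge β α₁ with h | h
    · rw [hle β h.le, hle (β + 1) (Order.add_one_le_of_lt h)]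
      exact h1s β h
    · obtain ⟨γ, rfl⟩ := exists_add_of_le h
      rw [add_assoc, hge, hge]
      exact h2s γ (by simpa using hβ)
  · rcases le_or_gt l α₁ with h | h
    · rw [hle l h, h1l l h hlim]
      exact Set.iUnion₂_congr fun β hβ => by rw [hle β (hβ.le.trans h)]
    · have hlim' := Ordinal.isSuccLimit_sub hlim.isSuccPrelimit h
      obtain ⟨γ, rfl⟩ := exists_add_of_le h.le
      rw [Ordinal.add_sub_cancel] at hlim'
      rw [hge, h2l γ (by simpa using hl) hlim']
      apply subset_antisymm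
      · refine Set.iUnion₂_subset fun δ hδ x hx => Set.mem_iUnion₂.2 ⟨α₁ + δ, by simpa, ?_⟩
        rwa [hge]
      · refine Set.iUnion₂_subset fun β hβ x hx => ?_
        rcases le_or_gt β α₁ with h' | h'
        · rw [hle β h'] at hx
          refine Set.mem_iUnion₂.2 ⟨0, hlim'.bot_lt, ?_⟩
          rw [h20, ← h1α]
          exact chain_mono h1s h1l α₁ le_rfl β h' hx
        · obtain ⟨δ, rfl⟩ := exists_add_of_le h'.le
          rw [hge] at hx
          exact Set.mem_iUnion₂.2 ⟨δ, by simpa using hβ, hx⟩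

theorem asc_omega (c : ℕ → Subgroup G) (hm : ∀ n, c n ≤ c (n + 1))
    (hn : ∀ n, c (n + 1) ≤ normalizer (c n : Set G)) : IsAscendant (c 0) (⨆ n, c n) := by
  have hmono : Monotone c := monotone_nat_of_le_succ hm
  let d : Ordinal.{u} → Subgroup G := fun β => ⨆ n : ℕ, ⨆ _ : (n : Ordinal.{u}) ≤ β, c n
  have hd : ∀ n : ℕ, d n = c n := fun n => le_antisymm
    (iSup₂_le fun m hmn => hmono (by exact_mod_cast hmn))
    (le_iSup₂_of_le (f := fun (m : ℕ) (_ : (m : Ordinal.{u}) ≤ n) => c m) n le_rfl le_rfl)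
  have hω : d Ordinal.omega0 = ⨆ n, c n := by
    simp only [d]
    exact iSup_congr fun n => iSup_pos (Ordinal.natCast_lt_omega0 n).le
  refine ⟨Ordinal.omega0, d, by simpa using hd 0, hω, fun β hβ => ?_, fun l hl hlim => ?_⟩
  · obtain ⟨n, rfl⟩ := Ordinal.lt_omega0.1 hβ
    have : (n : Ordinal.{u}) + 1 = ((n + 1 : ℕ) : Ordinal.{u}) := by simp
    rw [this, hd, hd]
    exact ⟨hm n, normal_subgroupOf_of_le_normalizer (hn n)⟩
  · rcases hl.lt_or_eq with h | rfl
    · exact absurd (Ordinal.omega0_le_of_isSuccLimit hlim) (not_le.2 h)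
    · rw [hω, coe_iSup_of_directed hmono.directed_le]
      apply subset_antisymm
      · refine Set.iUnion_subset fun n x hx => Set.mem_iUnion₂.2
          ⟨n, Ordinal.natCast_lt_omega0 n, ?_⟩
        rwa [hd]
      · refine Set.iUnion₂_subset fun β hβ x hx => ?_
        obtain ⟨n, rfl⟩ := Ordinal.lt_omega0.1 hβ
        rw [hd] at hx
        exact Set.mem_iUnion.2 ⟨n, hx⟩

theorem IsAscendant.map {G' : Type u} [Group G'] {H K : Subgroup G} (h : IsAscendant H K)
    (f : G →* G') : IsAscendant (H.map f) (K.map f) := by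
  obtain ⟨α, c, h0, hα, hs, hl⟩ := h
  refine ⟨α, fun β => (c β).map f, by simp only [h0], by simp only [hα], fun β hβ => ?_,
    fun l hlα hlim => ?_⟩
  · obtain ⟨h1, h2⟩ := hs β hβ
    refine ⟨map_mono h1, normal_subgroupOf_of_le_normalizer ?_⟩
    exact (map_mono ((normal_subgroupOf_iff_le_normalizer h1).1 h2)).trans (le_normalizer_map f)
  · simp only [coe_map]
    rw [hl l hlα hlim, Set.image_iUnion₂]

theorem asc_layer_core {A N : Subgroup G} [A.Normal] [N.Normal] {x : G}
    (htop : A ⊔ zpowers x = ⊤) (hA : ⁅A, A⁆ ≤ N) (he : ∀ s ∈ A, ∃ n, engel s x n = 1) :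
    IsAscendant (zpowers x ⊔ N) ⊤ := by
  have h := asc_omega (fun n => zpowers x ⊔ Zr N n)
    (fun n => sup_le_sup_left (Zr_mono N (Nat.le_succ n)) _) (fun n => by
      refine sup_le (le_sup_left.trans le_normalizer) ?_
      rw [le_normalizer_iff_commutator_le_right]
      exact (comm_Zr_succ N n _).trans le_sup_right)
  have h2 : ⨆ n, zpowers x ⊔ Zr N n = ⊤ := by
    rw [eq_top_iff, ← htop]
    refine sup_le (fun s hs => ?_) (le_iSup_of_le 0 le_sup_left)
    obtain ⟨n, hn⟩ := he s hs
    exact (le_iSup_of_le (f := fun n => zpowers x ⊔ Zr N n) n le_sup_right :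
      Zr N n ≤ _) (mem_Zr_of_engel htop hA n s hs hn)
  rwa [h2, Zr_zero] at h

theorem asc_layer {A : Subgroup G} [A.Normal] {x : G} (he : ∀ s ∈ A, ∃ n, engel s x n = 1) :
    IsAscendant (zpowers x ⊔ ⁅A, A⁆) (zpowers x ⊔ A) := by
  set K := zpowers x ⊔ A with hK
  have hxK : x ∈ K := (le_sup_left : zpowers x ≤ K) (mem_zpowers x)
  have hAA : ⁅A, A⁆ ≤ K := (commutator_le_self A).trans le_sup_right
  have hz : (zpowers (⟨x, hxK⟩ : K)).map K.subtype = zpowers x := by
    rw [MonoidHom.map_zpowers]; rfl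
  have htop : (⊤ : Subgroup K).map K.subtype = K := by
    rw [← MonoidHom.range_eq_map, range_subtype]
  have h := (asc_layer_core (G := K) (A := A.subgroupOf K) (N := ⁅A, A⁆.subgroupOf K)
    (x := ⟨x, hxK⟩) ?_ ?_ ?_).map K.subtype
  · rwa [Subgroup.map_sup, hz, map_subgroupOf_eq_of_le hAA, htop] at h
  · apply map_injective K.subtype_injective
    rw [Subgroup.map_sup, hz, map_subgroupOf_eq_of_le le_sup_right, htop, sup_comm]
  · refine commutator_le.2 fun a ha b hb => ?_
    exact commutator_mem_commutator (H₁ := A) (H₂ := A) ha hb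
  · intro s hs
    obtain ⟨n, hn⟩ := he s hs
    refine ⟨n, K.subtype_injective ?_⟩
    rw [map_engel, map_one]; exact hn

theorem engel_mem_lcs {H : Subgroup G} {s x : G} (hs : s ∈ H) (hx : x ∈ H) (n : ℕ) :
    engel s x n ∈ H.lowerCentralSeries n := by
  induction n with
  | zero => exact hs
  | succ n ih =>
    have : engel s x (n + 1) = ⁅(engel s x n)⁻¹, x⁻¹⁆ := by
      simp [engel, cm, commutatorElement_def]
    rw [this]
    exact commutator_mem_commutator (inv_mem ih) (inv_mem hx)

theorem asc_of_solvable (hs : Group.IsSolvable G) (hl : LNil (⊤ : Subgroup G)) (x : G) :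
    IsAscendant (zpowers x) (⊤ : Subgroup G) := by
  obtain ⟨d, hd⟩ := hs.solvable
  have he : ∀ s : G, ∃ n, engel s x n = 1 := by
    intro s
    obtain ⟨n, hn⟩ := hl {s, x} (Set.toFinite _) (by simp)
    refine ⟨n, mem_bot.1 (hn ▸ engel_mem_lcs ?_ ?_ n)⟩
    · exact Subgroup.subset_closure (by simp)
    · exact Subgroup.subset_closure (by simp)
  have key : ∀ j k, k + j = d → IsAscendant (zpowers x) (zpowers x ⊔ derivedSeries G k) := by
    intro j
    induction j with
    | zero => intro k hk; rw [show k = d by omega, hd, sup_bot_eq]; exact asc_refl _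
    | succ j ih =>
      intro k hk
      exact (ih (k + 1) (by omega)).trans (asc_layer (A := derivedSeries G k) fun s _ => he s)
  simpa using key d 0 (by simp)

theorem engel_conj (a x g : G) (n : ℕ) :
    engel (g * a * g⁻¹) (g * x * g⁻¹) n = g * engel a x n * g⁻¹ :=
  (map_engel (MulAut.conj g).toMonoidHom a x n).symm

theorem rightEngel_conj {a : G} (ha : a ∈ rightEngel G) (g : G) : g * a * g⁻¹ ∈ rightEngel G := by
  intro x
  obtain ⟨n, hn⟩ := ha (g⁻¹ * x * g)
  refine ⟨n, ?_⟩
  have := engel_conj a (g⁻¹ * x * g) g n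
  rw [hn] at this
  simpa [mul_assoc] using this

/-- Heineken: the inverse of a right Engel element is a left Engel element. -/
theorem heineken {a : G} (ha : a ∈ rightEngel G) (x : G) : ∃ n, engel x a⁻¹ n = 1 := by
  obtain ⟨n, hn⟩ := rightEngel_conj ha x⁻¹ a⁻¹
  refine ⟨n + 1 + 1, ?_⟩
  have h1 : ∀ m, engel x a⁻¹ (m + 1 + 1) = a * engel (x⁻¹ * a * x⁻¹⁻¹) a⁻¹ (m + 1) * a⁻¹ := by
    intro m
    induction m with
    | zero => simp only [engel, cm]; group
    | succ m ih =>
      rw [engel, ih, engel.eq_2 _ _ (m + 1)]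
      simp only [cm]; group
  rw [h1, engel_eq_one_of_le hn (Nat.le_succ n)]
  simp

theorem rightEngel_subset_rho (hG : IsMc G) : rightEngel G ⊆ rho G := by
  intro a ha x
  have hE : EngelSet {e : G | ∃ g : G, e = g * a⁻¹ * g⁻¹} := by
    constructor
    · rintro _ ⟨g, rfl⟩ h
      exact ⟨h * g, by group⟩
    · rintro _ ⟨g, rfl⟩ y
      have := heineken (rightEngel_conj ha g) y
      rwa [show (g * a * g⁻¹)⁻¹ = g * a⁻¹ * g⁻¹ by group] at this
  have hA : LNil (normalClosure {a}) := by
    refine (mainThm hG hE).mono ((closure_le _).2 ?_)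
    intro y hy
    obtain ⟨b, hb, hy⟩ := Group.mem_conjugatesOfSet_iff.1 hy
    rw [Set.mem_singleton_iff.1 hb] at hy
    obtain ⟨g, rfl⟩ := isConj_iff.1 hy
    rw [show g * a * g⁻¹ = (g * a⁻¹ * g⁻¹)⁻¹ by group]
    exact inv_mem (Subgroup.subset_closure ⟨g, rfl⟩)
  have hK : LNil (zpowers x ⊔ normalClosure {a}) := by
    rw [sup_comm]
    refine hp (S := Group.conjugatesOfSet {a}) hA ?_ ?_
    · exact subset_normalizer_of_normal (S := Set.univ) (H := normalClosure {a}) trivial
    · intro y hy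
      obtain ⟨b, hb, hy⟩ := Group.mem_conjugatesOfSet_iff.1 hy
      rw [Set.mem_singleton_iff.1 hb] at hy
      obtain ⟨g, rfl⟩ := isConj_iff.1 hy
      exact rightEngel_conj ha g x
  set K := zpowers x ⊔ normalClosure {a} with hKdef
  have hxK : x ∈ K := (le_sup_left : zpowers x ≤ K) (mem_zpowers x)
  have htop : (⊤ : Subgroup K).map K.subtype = K := by
    rw [← MonoidHom.range_eq_map, range_subtype]
  have hKl : LNil (⊤ : Subgroup K) := LNil.of_map K.subtype_injective (by rwa [htop])
  have h := (asc_of_solvable (solvable_of_lnil (hG.subgroup K) hKl) hKl ⟨x, hxK⟩).map K.subtype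
  rwa [MonoidHom.map_zpowers, htop] at h

theorem rho_subset_rightEngel : rho G ⊆ rightEngel G := by
  intro a ha x
  obtain ⟨α, c, h0, hα, hs, hl⟩ := ha x
  have hx : ∀ β ≤ α, x ∈ c β := fun β hβ =>
    chain_mono hs hl β hβ 0 (by simp) (h0 ▸ mem_zpowers x)
  have key : ∀ β ≤ α, ∀ g ∈ c β, ∃ n, engel g x n = 1 := by
    intro β
    induction β using Ordinal.limitRecOn with
    | zero =>
      intro _ g hg
      rw [h0] at hg
      obtain ⟨k, rfl⟩ := hg
      exact ⟨1, by simp only [engel, cm]; group⟩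
    | add_one β ih =>
      intro hβ g hg
      have hβ' : β < α := lt_of_lt_of_le (lt_add_one β) hβ
      obtain ⟨h1, h2⟩ := hs β hβ'
      have hn := (normal_subgroupOf_iff_le_normalizer h1).1 h2 hg
      have h3 : cm g x ∈ c β := by
        have := (mem_normalizer_iff.1 (inv_mem hn) x⁻¹).1 (inv_mem (hx β hβ'.le))
        rw [show cm g x = g⁻¹ * x⁻¹ * g⁻¹⁻¹ * x by simp [cm]]
        exact mul_mem this (hx β hβ'.le)
      obtain ⟨n, hn⟩ := ih hβ'.le _ h3
      exact ⟨n + 1, by rw [engel_succ', hn]⟩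
    | limit l hlim ih =>
      intro hβ g hg
      have : g ∈ (c l : Set G) := hg
      rw [hl l hβ hlim] at this
      obtain ⟨γ, hγ, hg'⟩ := Set.mem_iUnion₂.1 this
      exact ih γ hγ (hγ.le.trans hβ) g hg'
  refine key α le_rfl a ?_
  rw [hα]
  exact (le_sup_right : normalClosure {a} ≤ _) (subset_normalClosure rfl)

end Pool.Agent.MP_b9f959_al.H73
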