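import Pool.Agent.MP_b9f959_al.H73.LNil

namespace Pool.Agent.MP_b9f959_al.H73

open Subgroup hiding subset_closure map_eq_bot_iff upperCentralSeries mem_upperCentralSeries_succ_iff
  lowerCentralSeries_succ upperCentralSeries_zero lowerCentralSeries closure closure_mono
  lowerCentralSeries_antitone lowerCentralSeries_zero
open scoped commutatorElement

universe u
variable {G : Type u} [Group G]

/-- A conjugation invariant set of left Engel elements. -/
structure EngelSet (E : Set G) : Prop where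
  conj : ∀ e ∈ E, ∀ g : G, g * e * g⁻¹ ∈ E
  eng : ∀ e ∈ E, ∀ g : G, ∃ n, engel g e n = 1

def EG (E : Set G) (H : Subgroup G) : Prop := H ≤ Subgroup.closure (E ∩ H)

def Good (E : Set G) (H : Subgroup G) : Prop := EG E H ∧ LNil H

def Bad (E : Set G) (B : Subgroup G) : Prop :=
  Good E B ∧ ∃ U V, Good E U ∧ Good E V ∧ B ≤ U ∧ B ≤ V ∧ ¬ LNil (U ⊔ V)

variable {E : Set G}

theorem EG.eq {H : Subgroup G} (h : EG E H) : Subgroup.closure (E ∩ H) = H :=
  le_antisymm ((closure_le _).2 Set.inter_subset_right) h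

theorem EG.le_of {H K : Subgroup G} (h : EG E H) (hK : ∀ e ∈ E, e ∈ H → e ∈ K) : H ≤ K :=
  le_trans h ((closure_le _).2 fun e he => hK e he.1 he.2)

theorem eg_closure {X : Set G} (hX : X ⊆ E) : EG E (Subgroup.closure X) :=
  Subgroup.closure_mono (Set.subset_inter hX Subgroup.subset_closure)

theorem EG.sup {H K : Subgroup G} (hH : EG E H) (hK : EG E K) : EG E (H ⊔ K) := by
  apply sup_le
  · exact le_trans hH (Subgroup.closure_mono (Set.inter_subset_inter_right _
      (le_sup_left : H ≤ H ⊔ K)))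
  · exact le_trans hK (Subgroup.closure_mono (Set.inter_subset_inter_right _
      (le_sup_right : K ≤ H ⊔ K)))

theorem eg_zpowers {e : G} (he : e ∈ E) : EG E (zpowers e) := by
  rw [zpowers_eq_closure]; exact eg_closure (by simpa)

theorem Good.sup_zpowers (hE : EngelSet E) {W : Subgroup G} (hW : Good E W) {u : G} (hu : u ∈ E)
    (hn : u ∈ normalizer (W : Set G)) : Good E (W ⊔ zpowers u) := by
  refine ⟨hW.1.sup (eg_zpowers hu), ?_⟩
  have := hp (S := (W : Set G)) (u := u) (by rw [closure_eq]; exact hW.2)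
    (by rwa [closure_eq]) (fun s _ => hE.eng u hu s)
  rwa [closure_eq] at this

theorem Good.sup_of_not_bad {B U V : Subgroup G} (hB : Good E B) (hnb : ¬ Bad E B)
    (hU : Good E U) (hV : Good E V) (hBU : B ≤ U) (hBV : B ≤ V) : Good E (U ⊔ V) := by
  refine ⟨hU.1.sup hV.1, ?_⟩
  by_contra h
  exact hnb ⟨hB, U, V, hU, hV, hBU, hBV, h⟩

theorem Bad.of_le {B B' : Subgroup G} (hB : Bad E B) (hB' : EG E B') (h : B' ≤ B) : Bad E B' := by
  obtain ⟨h1, U, V, hU, hV, hBU, hBV, hUV⟩ := hB
  exact ⟨⟨hB', h1.2.mono h⟩, U, V, hU, hV, h.trans hBU, h.trans hBV, hUV⟩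

theorem Good.conj (hE : EngelSet E) {U : Subgroup G} (hU : Good E U) (w : G) :
    Good E (U.map (MulAut.conj w).toMonoidHom) := by
  refine ⟨?_, hU.2.map _⟩
  nth_rewrite 1 [← hU.1.eq]
  rw [MonoidHom.map_closure]
  apply eg_closure
  rintro _ ⟨e, he, rfl⟩
  exact hE.conj e he.1 w

theorem normalizer_inter (hE : EngelSet E) (H : Subgroup G) :
    normalizer (H : Set G) ≤ normalizer (Subgroup.closure (E ∩ H) : Set G) := by
  refine le_trans ?_ (normalizer_le_normalizer_closure _)
  rw [le_set_normalizer_iff]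
  intro g hg x hx
  exact ⟨hE.conj x hx.1 g, (mem_normalizer_iff.1 hg x).1 hx.2⟩

theorem climb (hE : EngelSet E) {I P : Subgroup G} (hP : Nil P) (hPE : EG E P) (hI : EG E I)
    (hIP : I ≤ P) (Q : Subgroup G → Prop) (h0 : Q I)
    (hstep : ∀ T T', EG E T → EG E T' → I ≤ T → T ≤ T' → T' ≤ P →
      (∀ e ∈ E, e ∈ T' → e ∈ normalizer (T : Set G)) → Q T → Q T') : Q P := by
  obtain ⟨c, hc⟩ := hP
  have key : ∀ j k, k + j = c →
      Q (Subgroup.closure (E ∩ (I ⊔ P.lowerCentralSeries k : Subgroup G))) := by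
    intro j
    induction j with
    | zero =>
      intro k hk
      rw [show k = c by omega, hc, sup_bot_eq, hI.eq]
      exact h0
    | succ j ih =>
      intro k hk
      refine hstep _ _ (eg_closure Set.inter_subset_left) (eg_closure Set.inter_subset_left)
        ?_ ?_ ?_ ?_ (ih (k + 1) (by omega))
      · exact le_trans hI (Subgroup.closure_mono (Set.inter_subset_inter_right _
          (le_sup_left : I ≤ _)))
      · exact Subgroup.closure_mono (Set.inter_subset_inter_right _
          (sup_le_sup_left (P.lowerCentralSeries_antitone (Nat.le_succ k)) I))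
      · exact (closure_le _).2 (Set.inter_subset_right.trans
          (sup_le hIP (lowerCentralSeries_le_self P k)))
      · intro e _ he
        apply normalizer_inter hE
        have h1 : e ∈ I ⊔ P.lowerCentralSeries k :=
          (closure_le _).2 Set.inter_subset_right he
        refine (sup_le (le_sup_left.trans le_normalizer) ?_ :
          I ⊔ P.lowerCentralSeries k ≤ normalizer _) h1
        rw [le_normalizer_iff_commutator_le_right]
        refine le_trans (commutator_mono le_rfl ?_) le_sup_right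
        exact sup_le hIP (lowerCentralSeries_le_self P _)
  have := key c 0 (by simp)
  rwa [Subgroup.lowerCentralSeries_zero, sup_eq_right.2 hIP, hPE.eq] at this

/-- Baer's step. -/
theorem baer (hE : EngelSet E) {W : Subgroup G} (hW : Good E W)
    (hmax : ∀ B, Good E B → W ≤ B → ¬ B ≤ W → ¬ Bad E B) {u v : G} (hu : u ∈ E) (hv : v ∈ E)
    (huW : u ∉ W) (hun : u ∈ normalizer (W : Set G)) (hvn : v ∈ normalizer (W : Set G)) :
    ∃ U, Good E U ∧ v ∈ U ∧ ∀ R, Good E R → W ⊔ zpowers u ≤ R → R ≤ U := by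
  have hB : Good E (W ⊔ zpowers u) := hW.sup_zpowers hE hu hun
  have hBnb : ¬ Bad E (W ⊔ zpowers u) := hmax _ hB le_sup_left
    (fun h => huW (h ((le_sup_right : zpowers u ≤ _) (mem_zpowers u))))
  set B := W ⊔ zpowers u with hBdef
  set U := Subgroup.closure {e | e ∈ E ∧ LNil (B ⊔ zpowers e)} with hUdef
  have hRU : ∀ R, Good E R → B ≤ R → R ≤ U := by
    intro R hR hBR
    refine hR.1.le_of fun e he heR => Subgroup.subset_closure ⟨he, hR.2.mono ?_⟩
    exact sup_le hBR (zpowers_le.2 heR)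
  have hU : Good E U := by
    refine ⟨eg_closure fun e he => he.1, lnil_closure fun T hT hTS => ?_⟩
    have : Good E (B ⊔ Subgroup.closure T) := by
      induction T, hT using Set.Finite.induction_on with
      | empty => simpa using hB
      | @insert a s _ _ ih =>
        have h1 := ih (fun x hx => hTS (Set.mem_insert_of_mem _ hx))
        have h2 := hTS (Set.mem_insert a s)
        have h3 : Good E (B ⊔ zpowers a) := ⟨hB.1.sup (eg_zpowers h2.1), h2.2⟩
        have h4 := hB.sup_of_not_bad hBnb h1 h3 le_sup_left le_sup_left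
        have : B ⊔ Subgroup.closure (insert a s) = B ⊔ Subgroup.closure s ⊔ (B ⊔ zpowers a) := by
          rw [Set.insert_eq, Subgroup.closure_union, zpowers_eq_closure, ← sup_sup_distrib_left,
            sup_comm (Subgroup.closure s)]
        rwa [this]
    exact this.2 T hT (Subgroup.subset_closure.trans (le_sup_right : Subgroup.closure T ≤ _))
  have hBU : B ≤ U := hRU B hB le_rfl
  have hWU : W ≤ U := le_sup_left.trans hBU
  have huU : u ∈ U := hBU ((le_sup_right : zpowers u ≤ _) (mem_zpowers u))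
  have hM : ∀ e ∈ E, e ∈ normalizer (U : Set G) → e ∈ U := by
    intro e he hn
    exact hRU _ (hU.sup_zpowers hE he hn) (hBU.trans le_sup_left)
      ((le_sup_right : zpowers e ≤ _) (mem_zpowers e))
  have hN : ∀ w ∈ normalizer (W : Set G), w⁻¹ * u * w ∈ U → w ∈ normalizer (U : Set G) := by
    intro w hw hwu
    have hu' : w⁻¹ * u * w ∈ E := by simpa using hE.conj u hu w⁻¹
    have hu'W : w⁻¹ * u * w ∉ W := by
      intro h
      have := (mem_normalizer_iff.1 hw _).1 h
      exact huW (by simpa [mul_assoc] using this)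
    have hB' : Good E (W ⊔ zpowers (w⁻¹ * u * w)) :=
      ⟨hW.1.sup (eg_zpowers hu'), hU.2.mono (sup_le hWU (zpowers_le.2 hwu))⟩
    have hB'nb := hmax _ hB' le_sup_left
      (fun h => hu'W (h ((le_sup_right : zpowers _ ≤ _) (mem_zpowers _))))
    have hUw := hU.conj hE w⁻¹
    have hle : W ⊔ zpowers (w⁻¹ * u * w) ≤ U.map (MulAut.conj w⁻¹).toMonoidHom := by
      apply sup_le
      · intro x hx
        refine ⟨w * x * w⁻¹, hWU ((mem_normalizer_iff.1 hw x).1 hx), ?_⟩
        simp [mul_assoc]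
      · rw [zpowers_le]
        exact ⟨u, huU, by simp⟩
    have hJ := hB'.sup_of_not_bad hB'nb hU hUw (sup_le hWU (zpowers_le.2 hwu)) hle
    have h1 : U.map (MulAut.conj w⁻¹).toMonoidHom ≤ U :=
      le_sup_right.trans (hRU _ hJ (hBU.trans le_sup_left))
    have hJ' := hJ.conj hE w
    have h2 : U ≤ (U ⊔ U.map (MulAut.conj w⁻¹).toMonoidHom).map (MulAut.conj w).toMonoidHom := by
      intro x hx
      refine ⟨w⁻¹ * x * w, (le_sup_right : U.map _ ≤ _) ⟨x, hx, by simp⟩, ?_⟩
      simp [mul_assoc]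
    have h3 := hRU _ hJ' (hBU.trans h2)
    rw [mem_normalizer_iff]
    intro x
    constructor
    · intro hx
      exact h3 ⟨x, (le_sup_left : U ≤ _) hx, rfl⟩
    · intro hx
      have := h1 ⟨_, hx, rfl⟩
      simpa [mul_assoc] using this
  obtain ⟨n, hn⟩ := hE.eng u hu v
  have hdesc : ∀ j k, k + j = n → engel v u k ∈ normalizer (U : Set G) := by
    intro j
    induction j with
    | zero => intro k hk; rw [show k = n by omega, hn]; exact one_mem _
    | succ j ih =>
      intro k hk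
      have h1 := ih (k + 1) (by omega)
      have hw : engel v u k ∈ normalizer (W : Set G) :=
        engel_mem_of_normalizer hvn (le_normalizer hun) k
      apply hN _ hw
      apply hM _ (by simpa using hE.conj u hu (engel v u k)⁻¹)
      have : (engel v u k)⁻¹ * u * engel v u k = u * (engel v u (k + 1))⁻¹ := by
        simp only [engel, cm]; group
      rw [this]
      exact mul_mem (le_normalizer huU) (inv_mem h1)
  exact ⟨U, hU, hM v hv (hdesc n 0 (by simp)), hRU⟩

/-- The key lemma. -/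
theorem keyLemma (hE : EngelSet E) {X : Set G} (hX : X.Finite) (hXE : X ⊆ E)
    (hI : Bad E (Subgroup.closure X)) {W : Subgroup G} (hW : Good E W)
    (h1 : ∀ B, Bad E B → Subgroup.closure X ≤ B → B ≤ W)
    (h2 : ∀ B, Bad E B → Subgroup.closure X ≤ B → ∀ u ∈ E, u ∈ normalizer (B : Set G) →
      u ∈ normalizer (W : Set G)) : False := by
  set I := Subgroup.closure X with hIdef
  have hIE : EG E I := eg_closure hXE
  have step1 : ∀ P, Nil P → EG E P → I ≤ P → LNil (W ⊔ P) := by
    intro P hP hPE hIP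
    have hPg : Good E P := ⟨hPE, hP.lnil⟩
    have := climb hE hP hPE hIE hIP (fun T => Bad E T ∨ LNil (W ⊔ P)) (Or.inl hI) ?_
    · rcases this with h | h
      · rw [sup_eq_left.2 (h1 P h hIP)]; exact hW.2
      · exact h
    rintro T T' hT hT' hIT hTT' hT'P hn (hb | hl)
    swap
    · exact Or.inr hl
    have hTW := h1 T hb hIT
    by_cases hc : ∀ u ∈ E, u ∈ T' → Bad E (T ⊔ zpowers u)
    · have hT'W : T' ≤ W := hT'.le_of fun e he heT =>
        h1 _ (hc e he heT) (hIT.trans le_sup_left) ((le_sup_right : zpowers e ≤ _) (mem_zpowers e))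
      by_cases hb' : Bad E T'
      · exact Or.inl hb'
      · exact Or.inr (Good.sup_of_not_bad ⟨hT', hW.2.mono hT'W⟩ hb' hW hPg hT'W hT'P).2
    · push Not at hc
      obtain ⟨u, hu, huT, hnb⟩ := hc
      have hle : T ⊔ zpowers u ≤ P := sup_le (hTT'.trans hT'P) (zpowers_le.2 (hT'P huT))
      have hg : Good E (T ⊔ zpowers u) := ⟨hT.sup (eg_zpowers hu), hP.lnil.mono hle⟩
      have hWu := hW.sup_zpowers hE hu (h2 T hb hIT u hu (hn u hu huT))
      have := hg.sup_of_not_bad hnb hWu hPg (sup_le_sup_right hTW _) hle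
      exact Or.inr (this.2.mono (sup_le_sup_right le_sup_left _))
  obtain ⟨P, Q, hP, hQ, hPE, hQE, hIP, hIQ, hPQ⟩ : ∃ P Q : Subgroup G, Nil P ∧ Nil Q ∧ EG E P ∧
      EG E Q ∧ I ≤ P ∧ I ≤ Q ∧ ¬ LNil (P ⊔ Q) := by
    obtain ⟨_, U, V, hU, hV, hIU, hIV, hUV⟩ := hI
    have : ¬ ∀ T : Set G, T.Finite → T ⊆ (E ∩ U) ∪ (E ∩ V) → Nil (Subgroup.closure T) := by
      intro h
      apply hUV
      have := lnil_closure h
      rwa [Subgroup.closure_union, hU.1.eq, hV.1.eq] at this
    push Not at this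
    obtain ⟨T, hT, hTS, hTn⟩ := this
    have hXU : X ⊆ U := Subgroup.subset_closure.trans hIU
    have hXV : X ⊆ V := Subgroup.subset_closure.trans hIV
    refine ⟨Subgroup.closure (X ∪ (T ∩ (E ∩ U))), Subgroup.closure (X ∪ (T ∩ (E ∩ V))),
      hU.2 _ (hX.union (hT.inter_of_left _)) (Set.union_subset hXU fun x hx => hx.2.2),
      hV.2 _ (hX.union (hT.inter_of_left _)) (Set.union_subset hXV fun x hx => hx.2.2),
      eg_closure (Set.union_subset hXE fun x hx => hx.2.1),
      eg_closure (Set.union_subset hXE fun x hx => hx.2.1),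
      Subgroup.closure_mono Set.subset_union_left, Subgroup.closure_mono Set.subset_union_left,
      fun h => hTn (h T hT fun x hx => ?_)⟩
    rcases hTS hx with h | h
    · exact (le_sup_left : Subgroup.closure _ ≤ _) (Subgroup.subset_closure (Or.inr ⟨hx, h⟩))
    · exact (le_sup_right : Subgroup.closure _ ≤ _) (Subgroup.subset_closure (Or.inr ⟨hx, h⟩))
  have hWP : Good E (W ⊔ P) := ⟨hW.1.sup hPE, step1 P hP hPE hIP⟩
  have hWQ : Good E (W ⊔ Q) := ⟨hW.1.sup hQE, step1 Q hQ hQE hIQ⟩
  have hWb : Bad E W := ⟨hW, _, _, hWP, hWQ, le_sup_left, le_sup_left,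
    fun h => hPQ (h.mono (sup_le_sup le_sup_right le_sup_right))⟩
  have hIW : I ≤ W := h1 I hI le_rfl
  have step2 : ∀ P, Nil P → EG E P → I ≤ P → ¬ P ≤ W →
      ∃ u ∈ E, u ∈ P ∧ u ∉ W ∧ u ∈ normalizer (W : Set G) := by
    intro P hP hPE hIP hPW
    have := climb hE hP hPE hIE hIP
      (fun T => T ≤ W ∨ ∃ u ∈ E, u ∈ P ∧ u ∉ W ∧ u ∈ normalizer (W : Set G)) (Or.inl hIW) ?_
    · exact this.resolve_left hPW
    rintro T T' hT hT' hIT hTT' hT'P hn (hb | hl)
    swap
    · exact Or.inr hl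
    by_cases hc : ∀ u ∈ E, u ∈ T' → u ∈ W
    · exact Or.inl (hT'.le_of hc)
    · push Not at hc
      obtain ⟨u, hu, huT, huW⟩ := hc
      exact Or.inr ⟨u, hu, hT'P huT, huW, h2 T (hWb.of_le hT hb) hIT u hu (hn u hu huT)⟩
  obtain ⟨u, hu, huP, huW, hun⟩ := step2 P hP hPE hIP
    (fun h => hPQ (hWQ.2.mono (sup_le_sup_right h _)))
  obtain ⟨v, hv, hvQ, hvW, hvn⟩ := step2 Q hQ hQE hIQ
    (fun h => hPQ (hWP.2.mono (sup_le le_sup_right (h.trans le_sup_left))))
  have hmax : ∀ B, Good E B → W ≤ B → ¬ B ≤ W → ¬ Bad E B :=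
    fun B _ hWB hBW hb => hBW (h1 B hb (hIW.trans hWB))
  obtain ⟨U, hU, hvU, hRU⟩ := baer hE hW hmax hu hv huW hun hvn
  have hPU : W ⊔ P ≤ U := hRU _ hWP (sup_le_sup_left (zpowers_le.2 huP) _)
  have hBv := hW.sup_zpowers hE hv hvn
  have := hBv.sup_of_not_bad (hmax _ hBv le_sup_left
    (fun h => hvW (h ((le_sup_right : zpowers v ≤ _) (mem_zpowers v))))) hU hWQ
    (sup_le (le_sup_left.trans hPU) (zpowers_le.2 hvU)) (sup_le_sup_left (zpowers_le.2 hvQ) _)
  exact hPQ (this.2.mono (sup_le_sup (le_sup_right.trans hPU) le_sup_right))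

end Pool.Agent.MP_b9f959_al.H73
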