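import Pool.Agent.MP_b9f959_al.H73.Basic

namespace Pool.Agent.MP_b9f959_al.H73

open Subgroup hiding subset_closure map_eq_bot_iff upperCentralSeries mem_upperCentralSeries_succ_iff
  lowerCentralSeries_succ upperCentralSeries_zero lowerCentralSeries closure closure_mono
  lowerCentralSeries_antitone lowerCentralSeries_zero
open scoped commutatorElement

universe u
variable {G : Type u} [Group G]

def Nil (H : Subgroup G) : Prop := ∃ n, H.lowerCentralSeries n = ⊥

def LNil (H : Subgroup G) : Prop :=
  ∀ X : Set G, X.Finite → X ⊆ H → Nil (Subgroup.closure X)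

theorem Nil.mono {H K : Subgroup G} (hK : Nil K) (h : H ≤ K) : Nil H := by
  obtain ⟨n, hn⟩ := hK
  exact ⟨n, le_bot_iff.1 (hn ▸ lowerCentralSeries_mono n h)⟩

theorem Nil.lnil {H : Subgroup G} (h : Nil H) : LNil H :=
  fun _ _ hX => h.mono ((closure_le _).2 hX)

theorem LNil.mono {H K : Subgroup G} (hK : LNil K) (h : H ≤ K) : LNil H :=
  fun X hX hXH => hK X hX (hXH.trans h)

theorem Nil.map {G' : Type u} [Group G'] {H : Subgroup G} (h : Nil H) (f : G →* G') :
    Nil (H.map f) := by
  obtain ⟨n, hn⟩ := h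
  exact ⟨n, by rw [← map_lowerCentralSeries, hn, Subgroup.map_bot]⟩

theorem Nil.of_map {G' : Type u} [Group G'] {H : Subgroup G} {f : G →* G'}
    (hf : Function.Injective f) (h : Nil (H.map f)) : Nil H := by
  obtain ⟨n, hn⟩ := h
  refine ⟨n, ?_⟩
  rw [← map_lowerCentralSeries, Subgroup.map_eq_bot_iff, (MonoidHom.ker_eq_bot_iff f).2 hf,
    le_bot_iff] at hn
  exact hn

theorem exists_finite_of_mem_closure {S : Set G} {x : G} (hx : x ∈ Subgroup.closure S) :
    ∃ T : Set G, T.Finite ∧ T ⊆ S ∧ x ∈ Subgroup.closure T := by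
  induction hx using closure_induction with
  | mem x hx => exact ⟨{x}, Set.finite_singleton x, by simpa, Subgroup.subset_closure rfl⟩
  | one => exact ⟨∅, Set.finite_empty, by simp, one_mem _⟩
  | mul x y _ _ hx hy =>
    obtain ⟨T, hT, hTS, hx⟩ := hx
    obtain ⟨T', hT', hTS', hy⟩ := hy
    exact ⟨T ∪ T', hT.union hT', Set.union_subset hTS hTS',
      mul_mem (Subgroup.closure_mono Set.subset_union_left hx)
        (Subgroup.closure_mono Set.subset_union_right hy)⟩
  | inv x _ hx =>
    obtain ⟨T, hT, hTS, hx⟩ := hx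
    exact ⟨T, hT, hTS, inv_mem hx⟩

theorem exists_finite_of_subset_closure {S X : Set G} (hX : X.Finite)
    (h : X ⊆ Subgroup.closure S) :
    ∃ T : Set G, T.Finite ∧ T ⊆ S ∧ X ⊆ Subgroup.closure T := by
  induction X, hX using Set.Finite.induction_on with
  | empty => exact ⟨∅, Set.finite_empty, by simp, by simp⟩
  | @insert a s _ _ ih =>
    obtain ⟨T, hT, hTS, hs⟩ := ih (fun x hx => h (Set.mem_insert_of_mem _ hx))
    obtain ⟨T', hT', hTS', ha⟩ := exists_finite_of_mem_closure (h (Set.mem_insert a s))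
    refine ⟨T ∪ T', hT.union hT', Set.union_subset hTS hTS', ?_⟩
    rintro x (rfl | hx)
    · exact Subgroup.closure_mono Set.subset_union_right ha
    · exact Subgroup.closure_mono Set.subset_union_left (hs hx)

theorem lnil_closure {S : Set G}
    (h : ∀ T : Set G, T.Finite → T ⊆ S → Nil (Subgroup.closure T)) :
    LNil (Subgroup.closure S) := by
  intro X hX hXS
  obtain ⟨T, hT, hTS, hXT⟩ := exists_finite_of_subset_closure hX hXS
  exact (h T hT hTS).mono ((closure_le _).2 hXT)

theorem LNil.map {G' : Type u} [Group G'] {H : Subgroup G} (h : LNil H) (f : G →* G') :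
    LNil (H.map f) := by
  intro X hX hXH
  obtain ⟨T, hTH, hT, rfl⟩ := (Set.Finite.exists_subset_finite_image_eq hX hXH)
  rw [← MonoidHom.map_closure]
  exact (h T hT hTH).map f

theorem LNil.of_map {G' : Type u} [Group G'] {H : Subgroup G} {f : G →* G'}
    (hf : Function.Injective f) (h : LNil (H.map f)) : LNil H := by
  intro X hX hXH
  apply Nil.of_map hf
  rw [MonoidHom.map_closure]
  exact h _ (hX.image f) (Set.image_mono hXH)

/-- Relative upper central series. -/
def Zr (N : Subgroup G) [N.Normal] (n : ℕ) : Subgroup G :=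
  (Z (G ⧸ N) n).comap (QuotientGroup.mk' N)

instance Zr_normal (N : Subgroup G) [N.Normal] (n : ℕ) : (Zr N n).Normal := by
  unfold Zr; infer_instance

theorem Zr_zero (N : Subgroup G) [N.Normal] : Zr N 0 = N := by
  unfold Zr
  rw [Z_zero, MonoidHom.comap_bot, QuotientGroup.ker_mk']

theorem Zr_succ (N : Subgroup G) [N.Normal] (n : ℕ) :
    Zr N (n + 1) = D (Zr N n) ((⊤ : Subgroup G) : Set G) := by
  ext g
  rw [mem_D]
  unfold Zr
  rw [mem_comap, Subgroup.mem_upperCentralSeries_succ_iff]
  constructor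
  · intro h x _
    rw [mem_comap, map_commutatorElement]
    exact h _
  · intro h y
    obtain ⟨x, rfl⟩ := QuotientGroup.mk'_surjective N y
    have := h x trivial
    rwa [mem_comap, map_commutatorElement] at this

theorem Zr_mono (N : Subgroup G) [N.Normal] : Monotone (Zr N) :=
  fun _ _ h => comap_mono (Z_mono h)

theorem le_Zr (N : Subgroup G) [N.Normal] (n : ℕ) : N ≤ Zr N n := by
  have := Zr_mono N (Nat.zero_le n)
  rwa [Zr_zero] at this

theorem comm_Zr_succ (N : Subgroup G) [N.Normal] (n : ℕ) (H : Subgroup G) :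
    ⁅Zr N (n + 1), H⁆ ≤ Zr N n := by
  refine le_trans (commutator_mono le_rfl le_top) ?_
  rw [← le_D_iff, Zr_succ]

theorem Zr_le_Zr {N N' : Subgroup G} [N.Normal] [N'.Normal] {b : ℕ} (h : N ≤ Zr N' b) (n : ℕ) :
    Zr N n ≤ Zr N' (b + n) := by
  induction n with
  | zero => rwa [Zr_zero]
  | succ n ih =>
    rw [← add_assoc, Zr_succ, Zr_succ]
    exact D_mono_left ih _

theorem lcs_le_Zr {N : Subgroup G} [N.Normal] (k : ℕ) : ∀ m : ℕ, Zr N (k + m) = ⊤ →
    (⊤ : Subgroup G).lowerCentralSeries k ≤ Zr N m := by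
  induction k with
  | zero => intro m h; rw [zero_add] at h; rw [h]; exact le_top
  | succ k ih =>
    intro m h
    rw [Subgroup.lowerCentralSeries_succ]
    refine le_trans (commutator_mono (ih (m + 1) ?_) le_rfl) (comm_Zr_succ N m ⊤)
    rwa [show k + (m + 1) = k + 1 + m by ring]

theorem hall_step {M : Subgroup G} [M.Normal] (i : ℕ) (n : ℕ) : ∀ s t : ℕ, s + t = n →
    ⁅M.lowerCentralSeries i ⊓ Zr (M.lowerCentralSeries (i + 1)) s,
      M ⊓ Zr (M.lowerCentralSeries 1) t⁆ ≤ Zr (M.lowerCentralSeries (i + 2)) n := by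
  induction n with
  | zero =>
    intro s t h
    obtain rfl : s = 0 := by omega
    rw [Zr_zero, Zr_zero]
    exact commutator_mono inf_le_right inf_le_left
  | succ n ih =>
    intro s t h
    rcases s with _ | s
    · rw [Zr_zero]
      exact le_trans (commutator_mono inf_le_right inf_le_left) (le_Zr _ _)
    rcases t with _ | t
    · rw [Zr_zero]
      refine le_trans (commutator_mono inf_le_left inf_le_right) (le_trans ?_ (le_Zr _ _))
      rw [commutator_comm]
      change ⁅⁅M, M⁆, M.lowerCentralSeries i⁆ ≤ _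
      apply three
      · rw [commutator_comm M]; exact le_rfl
      · exact le_rfl
    rw [Zr_succ _ n, le_D_iff]
    apply three
    · rw [commutator_comm]
      refine le_trans (commutator_mono le_rfl ?_) (ih (s + 1) t (by omega))
      exact le_inf (le_trans (commutator_mono inf_le_left le_rfl) (commutator_le_left _ _))
        (le_trans (commutator_mono inf_le_right le_rfl) (comm_Zr_succ _ _ _))
    · refine le_trans (commutator_mono ?_ le_rfl) (ih s (t + 1) (by omega))
      rw [commutator_comm]
      exact le_inf (le_trans (commutator_mono inf_le_left le_rfl) (commutator_le_left _ _))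
        (le_trans (commutator_mono inf_le_right le_rfl) (comm_Zr_succ _ _ _))

/-- P. Hall's nilpotency criterion. -/
theorem hall {M : Subgroup G} [M.Normal] (hM : Nil M) {a : ℕ}
    (ha : Zr (M.lowerCentralSeries 1) a = ⊤) : Nil (⊤ : Subgroup G) := by
  have h1 : ∀ i, ∃ b, M.lowerCentralSeries i ≤ Zr (M.lowerCentralSeries (i + 1)) b := by
    intro i
    induction i with
    | zero => exact ⟨a, ha ▸ le_top⟩
    | succ i ih =>
      obtain ⟨b, hb⟩ := ih
      refine ⟨b + a, le_trans ?_ (hall_step i (b + a) b a rfl)⟩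
      exact commutator_mono (le_inf le_rfl hb) (le_inf le_rfl (ha ▸ le_top))
  have h2 : ∀ i, ∃ n, Zr (M.lowerCentralSeries (i + 1)) n = ⊤ := by
    intro i
    induction i with
    | zero => exact ⟨a, ha⟩
    | succ i ih =>
      obtain ⟨n, hn⟩ := ih
      obtain ⟨b, hb⟩ := h1 (i + 1)
      exact ⟨b + n, top_le_iff.1 (hn ▸ Zr_le_Zr hb n)⟩
  obtain ⟨c, hc⟩ := hM
  obtain ⟨n, hn⟩ := h2 c
  refine ⟨n, le_bot_iff.1 ?_⟩
  have := lcs_le_Zr (N := M.lowerCentralSeries (c + 1)) n 0 hn
  rw [Zr_zero] at this
  exact this.trans (hc ▸ M.lowerCentralSeries_antitone (Nat.le_succ c))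

theorem cm_mem_iff {N : Subgroup G} [hN : N.Normal] {s u : G} : cm s u ∈ N ↔ ⁅s, u⁆ ∈ N := by
  constructor
  · intro h
    convert hN.conj_mem _ h (u * s) using 1
    simp only [cm, commutatorElement_def]; group
  · intro h
    convert hN.conj_mem _ h (u * s)⁻¹ using 1
    simp only [cm, commutatorElement_def]; group

theorem engel_succ' (s u : G) (n : ℕ) : engel s u (n + 1) = engel (cm s u) u n := by
  induction n with
  | zero => rfl
  | succ n ih => rw [engel, ih]; rfl

theorem engel_eq_one_of_le {s u : G} {n m : ℕ} (h : engel s u n = 1) (hm : n ≤ m) :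
    engel s u m = 1 := by
  induction hm with
  | refl => exact h
  | step _ ih => rw [engel, ih]; simp [cm]

theorem map_cm {G' : Type u} [Group G'] (f : G →* G') (s u : G) :
    f (cm s u) = cm (f s) (f u) := by simp [cm]

theorem map_engel {G' : Type u} [Group G'] (f : G →* G') (s u : G) (n : ℕ) :
    f (engel s u n) = engel (f s) (f u) n := by
  induction n with
  | zero => rfl
  | succ n ih => rw [engel, engel, map_cm, ih]

theorem cm_mem_of_normalizer {W : Subgroup G} {s u : G} (hs : s ∈ W)
    (hu : u ∈ normalizer (W : Set G)) : cm s u ∈ W := by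
  have h := (mem_normalizer_iff.1 (inv_mem hu) s).1 hs
  have : cm s u = s⁻¹ * (u⁻¹ * s * u⁻¹⁻¹) := by simp only [cm]; group
  rw [this]
  exact mul_mem (inv_mem hs) h

theorem engel_mem_of_normalizer {W : Subgroup G} {s u : G} (hs : s ∈ W)
    (hu : u ∈ normalizer (W : Set G)) (n : ℕ) : engel s u n ∈ W := by
  induction n with
  | zero => exact hs
  | succ n ih => exact cm_mem_of_normalizer ih hu

theorem D_zpowers {N : Subgroup G} [N.Normal] (u : G) : D N (zpowers u) = D N {u} := by
  rw [zpowers_eq_closure, D_closure]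

theorem mem_Zr_of_engel {A N : Subgroup G} [A.Normal] [N.Normal] {u : G}
    (htop : A ⊔ zpowers u = ⊤) (hA : ⁅A, A⁆ ≤ N) (n : ℕ) :
    ∀ s ∈ A, engel s u n = 1 → s ∈ Zr N n := by
  induction n with
  | zero => intro s _ h; change s = 1 at h; rw [h]; exact one_mem _
  | succ n ih =>
    intro s hs h
    rw [engel_succ'] at h
    have h1 : cm s u ∈ A := cm_mem_of_normalizer hs (by rw [normalizer_eq_top]; trivial)
    have h2 := ih _ h1 h
    rw [Zr_succ, ← htop]
    apply D_sup
    refine ⟨le_D_iff.2 (hA.trans (le_Zr N n)) hs, ?_⟩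
    rw [D_zpowers]
    refine mem_D.2 ?_
    rintro x rfl
    exact cm_mem_iff.1 h2

theorem hp_core {Y : Set G} {u : G} [hM : (Subgroup.closure Y).Normal]
    (htop : Subgroup.closure Y ⊔ zpowers u = ⊤) (hnil : Nil (Subgroup.closure Y)) {n : ℕ}
    (hY : ∀ y ∈ Y, engel y u n = 1) : Nil (⊤ : Subgroup G) := by
  set M := Subgroup.closure Y with hMdef
  apply hall hnil (a := n + 1)
  have h1 : M ≤ Zr (M.lowerCentralSeries 1) n := by
    refine (closure_le _).2 ?_
    intro y hy
    exact mem_Zr_of_engel htop le_rfl n y (Subgroup.subset_closure hy) (hY y hy)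
  rw [Zr_succ, eq_top_iff]
  refine le_trans ?_ (D_mono_left h1 _)
  nth_rewrite 2 [← htop]
  refine le_trans (le_inf ?_ ?_) (D_sup _ _)
  · rw [le_D_iff]; exact commutator_le_right _ _
  · rw [← htop]
    apply sup_le
    · rw [le_D_iff]; exact commutator_le_left _ _
    · rw [D_zpowers, zpowers_le]
      refine mem_D.2 ?_
      rintro x rfl
      simp

theorem closure_preimage_subtype {K : Subgroup G} {Y : Set G} (hY : Y ⊆ K) :
    Subgroup.closure (K.subtype ⁻¹' Y) = (Subgroup.closure Y).subgroupOf K := by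
  apply map_injective K.subtype_injective
  rw [MonoidHom.map_closure, Set.image_preimage_eq_of_subset (by simpa using hY),
    map_subgroupOf_eq_of_le ((closure_le _).2 hY)]

theorem hp_fin {Y : Set G} {u : G} (hu : u ∈ normalizer (Subgroup.closure Y : Set G))
    (hnil : Nil (Subgroup.closure Y)) {n : ℕ}
    (hY : ∀ y ∈ Y, engel y u n = 1) : Nil (Subgroup.closure Y ⊔ zpowers u) := by
  set K := Subgroup.closure Y ⊔ zpowers u with hK
  have hYK : Y ⊆ K := Subgroup.subset_closure.trans (le_sup_left : Subgroup.closure Y ≤ K)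
  have huK : u ∈ K := (le_sup_right : zpowers u ≤ K) (mem_zpowers u)
  have hc := closure_preimage_subtype hYK
  have : (Subgroup.closure (K.subtype ⁻¹' Y)).Normal := by
    rw [hc]
    apply normal_subgroupOf_of_le_normalizer
    exact sup_le le_normalizer (zpowers_le.2 hu)
  have h := hp_core (G := K) (Y := K.subtype ⁻¹' Y) (u := ⟨u, huK⟩) ?_ ?_ (n := n) ?_
  · have := h.map K.subtype
    rwa [← MonoidHom.range_eq_map, range_subtype] at this
  · apply map_injective K.subtype_injective
    rw [Subgroup.map_sup, hc, map_subgroupOf_eq_of_le le_sup_left, MonoidHom.map_zpowers,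
      ← MonoidHom.range_eq_map, range_subtype]
    rfl
  · apply Nil.of_map K.subtype_injective
    rwa [hc, map_subgroupOf_eq_of_le le_sup_left]
  · intro y hy
    apply K.subtype_injective
    rw [map_engel, map_one]
    exact hY _ hy

/-- A locally nilpotent subgroup extended by a normalizing element that acts as an Engel element
on a generating set is locally nilpotent. -/
theorem hp {S : Set G} {u : G} (hW : LNil (Subgroup.closure S))
    (hu : u ∈ normalizer (Subgroup.closure S : Set G))
    (hS : ∀ s ∈ S, ∃ n, engel s u n = 1) : LNil (Subgroup.closure S ⊔ zpowers u) := by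
  rw [zpowers_eq_closure, ← Subgroup.closure_union]
  apply lnil_closure
  intro T hT hTS
  have hT0 : (T ∩ S).Finite := hT.inter_of_left _
  obtain ⟨n, hn⟩ : ∃ n, ∀ s ∈ T ∩ S, engel s u n = 1 := by
    choose! f hf using hS
    obtain ⟨n, hn⟩ := (hT0.image f).bddAbove
    exact ⟨n, fun s hs => engel_eq_one_of_le (hf s hs.2) (hn ⟨s, hs, rfl⟩)⟩
  set Y : Set G := (fun p : G × ℕ => engel p.1 u p.2) '' ((T ∩ S) ×ˢ Set.Iic n) with hYdef
  have hYfin : Y.Finite := (hT0.prod (Set.finite_Iic n)).image _
  have hYW : Y ⊆ Subgroup.closure S := by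
    rintro _ ⟨⟨s, k⟩, ⟨hs, _⟩, rfl⟩
    exact engel_mem_of_normalizer (Subgroup.subset_closure hs.2) hu k
  have hall_k : ∀ s ∈ T ∩ S, ∀ k, engel s u k ∈ Subgroup.closure Y := by
    intro s hs k
    by_cases hk : k ≤ n
    · exact Subgroup.subset_closure ⟨⟨s, k⟩, ⟨hs, hk⟩, rfl⟩
    · rw [engel_eq_one_of_le (hn s hs) (by omega)]; exact one_mem _
  have hinv : ∀ s ∈ T ∩ S, ∀ j k, k + j = n →
      u * engel s u k * u⁻¹ ∈ Subgroup.closure Y := by
    intro s hs j
    induction j with
    | zero => intro k hk; rw [show k = n by omega, hn s hs]; simp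
    | succ j ih =>
      intro k hk
      have h1 := ih (k + 1) (by omega)
      have : u * engel s u k * u⁻¹ = engel s u k * (u * engel s u (k + 1) * u⁻¹)⁻¹ := by
        simp only [engel, cm]; group
      rw [this]
      exact mul_mem (hall_k s hs k) (inv_mem h1)
  have huM : u ∈ normalizer (Subgroup.closure Y : Set G) := by
    rw [mem_normalizer_iff]
    intro h
    constructor
    · intro hh
      have : (Subgroup.closure Y).map (MulAut.conj u).toMonoidHom ≤ Subgroup.closure Y := by
        rw [MonoidHom.map_closure, closure_le]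
        rintro _ ⟨_, ⟨⟨s, k⟩, ⟨hs, hk⟩, rfl⟩, rfl⟩
        exact hinv s hs (n - k) k (by simp at hk; omega)
      exact this ⟨h, hh, rfl⟩
    · intro hh
      have : (Subgroup.closure Y).map (MulAut.conj u⁻¹).toMonoidHom ≤ Subgroup.closure Y := by
        rw [MonoidHom.map_closure, closure_le]
        rintro _ ⟨_, ⟨⟨s, k⟩, ⟨hs, hk⟩, rfl⟩, rfl⟩
        have : (MulAut.conj u⁻¹).toMonoidHom (engel s u k) = engel s u k * engel s u (k + 1) := by
          simp only [engel, cm, MulEquiv.toMonoidHom_eq_coe, MonoidHom.coe_coe, MulAut.conj_apply]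
          group
        change (MulAut.conj u⁻¹).toMonoidHom (engel s u k) ∈ _
        rw [this]
        exact mul_mem (hall_k s hs k) (hall_k s hs (k + 1))
      have h2 := this ⟨_, hh, rfl⟩
      simpa [mul_assoc] using h2
  have hK := hp_fin huM (hW Y hYfin hYW) (n := n) (by
    rintro _ ⟨⟨s, k⟩, ⟨hs, _⟩, rfl⟩
    have : ∀ m, engel (engel s u k) u m = engel s u (k + m) := by
      intro m
      induction m with
      | zero => rfl
      | succ m ih => rw [engel, ih]; rfl
    change engel (engel s u k) u n = 1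
    rw [this]
    exact engel_eq_one_of_le (hn s hs) (by omega))
  refine hK.mono ((closure_le _).2 ?_)
  intro t ht
  rcases hTS ht with h | h
  · exact (le_sup_left : Subgroup.closure Y ≤ _) (hall_k t ⟨ht, h⟩ 0)
  · rw [Set.mem_singleton_iff.1 h]
    exact (le_sup_right : zpowers u ≤ _) (mem_zpowers u)

end Pool.Agent.MP_b9f959_al.H73
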