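import Pool.Agent.MP_b9f959_al.H73.Noeth

namespace Pool.Agent.MP_b9f959_al.H73

open Subgroup hiding subset_closure map_eq_bot_iff upperCentralSeries mem_upperCentralSeries_succ_iff
  lowerCentralSeries_succ upperCentralSeries_zero lowerCentralSeries closure closure_mono
  lowerCentralSeries_antitone lowerCentralSeries_zero
open scoped commutatorElement

universe u
variable {G : Type u} [Group G] {E : Set G}

/-- The union of the finite terms of the upper central series. -/
def zeta (G : Type u) [Group G] : Subgroup G := ⨆ j, Z G j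

theorem mem_zeta {g : G} : g ∈ zeta G ↔ ∃ j, g ∈ Z G j :=
  mem_iSup_of_directed Z_mono.directed_le

instance zeta_normal : (zeta G).Normal :=
  ⟨fun n hn g => by
    obtain ⟨j, hj⟩ := mem_zeta.1 hn
    exact mem_zeta.2 ⟨j, (inferInstance : (Z G j).Normal).conj_mem n hj g⟩⟩

theorem Z_le_zeta (j : ℕ) : Z G j ≤ zeta G := le_iSup (Z G) j

theorem exists_Z_of_finite {X : Set G} (hX : X.Finite) (h : X ⊆ zeta G) : ∃ j, X ⊆ Z G j := by
  choose! f hf using fun x (hx : x ∈ X) => mem_zeta.1 (h hx)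
  obtain ⟨n, hn⟩ := (hX.image f).bddAbove
  exact ⟨n, fun x hx => Z_mono (hn ⟨x, hx, rfl⟩) (hf x hx)⟩

theorem nil_Z (j : ℕ) : Nil (Z G j) := by
  have : ∀ k m, k + m = j → (Z G j).lowerCentralSeries k ≤ Z G m := by
    intro k
    induction k with
    | zero => intro m hm; rw [show m = j by omega]; exact le_rfl
    | succ k ih =>
      intro m hm
      exact le_trans (commutator_mono (ih (m + 1) (by omega)) le_rfl) (comm_Z_succ m _)
  exact ⟨j, le_bot_iff.1 (this j 0 rfl)⟩

theorem lnil_zeta : LNil (zeta G) := by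
  intro X hX h
  obtain ⟨j, hj⟩ := exists_Z_of_finite hX h
  exact (nil_Z j).mono ((closure_le _).2 hj)

theorem exists_center_mod {N H : Subgroup G} [N.Normal] (hH : Nil H) (hHN : ¬ H ≤ N) :
    ∃ z ∈ H, z ∉ N ∧ z ∈ D N H := by
  obtain ⟨c, hc⟩ := hH
  by_contra hcon
  push Not at hcon
  have : ∀ j k, k + j = c → H.lowerCentralSeries k ≤ N := by
    intro j
    induction j with
    | zero => intro k hk; rw [show k = c by omega, hc]; exact bot_le
    | succ j ih =>
      intro k hk z hz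
      by_contra hzN
      exact hcon z (lowerCentralSeries_le_self H k hz) hzN (le_D_iff.2 (ih (k + 1) (by omega)) hz)
  exact hHN (this c 0 (by simp))

theorem nil_zpowers (a : G) : Nil (zpowers a) := by
  refine ⟨1, ?_⟩
  change ⁅zpowers a, zpowers a⁆ = ⊥
  rw [commutator_self_eq_bot_iff]
  infer_instance

/-- Finitely generated bad subgroups, given by their generating sets. -/
def FB (E : Set G) (X : Set G) : Prop := X.Finite ∧ X ⊆ E ∧ Bad E (Subgroup.closure X)

structure Setup (E : Set G) (i₀ : ℕ) : Prop where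
  mc : IsMc G
  eng : EngelSet E
  fg : ∃ X : Set G, X.Finite ∧ X ⊆ E ∧ Subgroup.closure X = ⊤
  nl : ¬ LNil (⊤ : Subgroup G)
  big : ∀ K : Subgroup G, EG E K → ¬ LNil K → ∀ i,
    centralizer (K.lowerCentralSeries i : Set G) ≤
      centralizer ((⊤ : Subgroup G).lowerCentralSeries i : Set G)
  stab : ∀ i ≥ i₀, centralizer ((⊤ : Subgroup G).lowerCentralSeries i : Set G) ≤
      centralizer ((⊤ : Subgroup G).lowerCentralSeries i₀ : Set G)

variable {i₀ : ℕ}

theorem Setup.D_big (h : Setup E i₀) {K : Subgroup G} (hK : EG E K) (hn : ¬ LNil K) (j : ℕ) :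
    D (Z G j) K ≤ Z G (j + 1) := by
  induction j using Nat.strong_induction_on with
  | _ j ih =>
    rw [Z_succ]
    exact lemmaB le_top j ih (h.big K hK hn j)

theorem Setup.fb_empty (h : Setup E i₀) : FB E ∅ := by
  refine ⟨Set.finite_empty, by simp, ⟨eg_closure (by simp), ?_⟩, ?_⟩
  · rw [Subgroup.closure_empty]; exact Nil.lnil ⟨0, rfl⟩
  by_contra hcon
  push Not at hcon
  have : ∀ T : Set G, T.Finite → T ⊆ E → LNil (Subgroup.closure T) := by
    intro T hT hTE
    induction T, hT using Set.Finite.induction_on with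
    | empty => rw [Subgroup.closure_empty]; exact Nil.lnil ⟨0, rfl⟩
    | @insert a s _ _ ih =>
      have hs : s ⊆ E := fun x hx => hTE (Set.mem_insert_of_mem _ hx)
      rw [Set.insert_eq, Subgroup.closure_union, ← zpowers_eq_closure]
      exact hcon _ _ ⟨eg_zpowers (hTE (Set.mem_insert a s)), (nil_zpowers a).lnil⟩
        ⟨eg_closure hs, ih hs⟩ (by simp) (by simp)
  obtain ⟨X, hX, hXE, htop⟩ := h.fg
  exact h.nl (htop ▸ this X hX hXE)

theorem Setup.useKey (h : Setup E i₀) {X : Set G} (hX : FB E X) (N : Subgroup G) [N.Normal]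
    (hst : ∀ X', FB E X' → X ⊆ X' →
      D N (Subgroup.closure X) ≤ D N (Subgroup.closure X' : Subgroup G))
    (hW : LNil (Subgroup.closure (E ∩ D N (D N (Subgroup.closure X : Subgroup G))))) : False := by
  have hB : ∀ B, Bad E B → Subgroup.closure X ≤ B → D N B = D N (Subgroup.closure X) := by
    intro B hB hXB
    apply le_antisymm (D_anti hXB)
    rw [← hB.1.1.eq, D_closure (E ∩ B)]
    intro g hg
    refine mem_D.2 fun e he => ?_
    have hsub : insert e X ⊆ E := Set.insert_subset he.1 hX.2.1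
    have h1 : FB E (insert e X) := ⟨hX.1.insert e, hsub, hB.of_le (eg_closure hsub)
      ((closure_le _).2 (Set.insert_subset he.2 (Subgroup.subset_closure.trans hXB)))⟩
    exact mem_D.1 (hst _ h1 (Set.subset_insert e X) hg) e
      (Subgroup.subset_closure (Set.mem_insert e X))
  refine keyLemma h.eng hX.1 hX.2.1 hX.2.2 ⟨eg_closure Set.inter_subset_left, hW⟩ ?_ ?_
  · intro B hb hXB
    refine hb.1.1.le_of fun e he heB => Subgroup.subset_closure ⟨he, ?_⟩
    rw [← hB B hb hXB]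
    exact (subset_D_comm.1 (subset_refl (D N B : Set G))) heB
  · intro B hb hXB u _ hu
    rw [← hB B hb hXB]
    exact normalizer_inter h.eng _ (normalizer_le_normalizer_D _ (normalizer_le_normalizer_D _ hu))

theorem Setup.step (h : Setup E i₀) {X : Set G} (hX : FB E X) (j : ℕ)
    (hlow : ∀ m < j, D (Z G m) (Subgroup.closure X : Subgroup G) ≤ Z G (m + 1)) :
    ∃ X', FB E X' ∧ X ⊆ X' ∧
      ∀ m < j + 1, D (Z G m) (Subgroup.closure X' : Subgroup G) ≤ Z G (m + 1) := by
  obtain ⟨X₁, ⟨hX₁, hXX₁⟩, hmin⟩ := h.mc.exists_min {X' | FB E X' ∧ X ⊆ X'} ⟨X, hX, subset_refl _⟩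
    (fun X' => ((Subgroup.closure X').lowerCentralSeries j : Set G))
  have hlow₁ : ∀ m < j, D (Z G m) (Subgroup.closure X₁ : Subgroup G) ≤ Z G (m + 1) :=
    fun m hm => (D_anti (Subgroup.closure_mono hXX₁)).trans (hlow m hm)
  refine ⟨X₁, hX₁, hXX₁, fun m hm => ?_⟩
  rcases Nat.lt_succ_iff_lt_or_eq.1 hm with hm | rfl
  · exact hlow₁ m hm
  by_contra hcon
  refine h.useKey hX₁ (Z G m) (fun X' hX' hle => ?_) ?_
  · exact lemmaB (Subgroup.closure_mono hle) m hlow₁ (hmin X' ⟨hX', hXX₁.trans hle⟩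
      (centralizer_le (lowerCentralSeries_mono m (Subgroup.closure_mono hle))))
  · by_contra hn
    apply hcon
    refine le_trans ?_ (h.D_big (eg_closure Set.inter_subset_left) hn m)
    rw [D_closure (E ∩ _)]
    exact subset_D_comm.1 Set.inter_subset_right

theorem Setup.levels (h : Setup E i₀) {X : Set G} (hX : FB E X) (k : ℕ) :
    ∃ X', FB E X' ∧ X ⊆ X' ∧
      ∀ m < k, D (Z G m) (Subgroup.closure X' : Subgroup G) ≤ Z G (m + 1) := by
  induction k with
  | zero => exact ⟨X, hX, subset_refl _, by simp⟩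
  | succ k ih =>
    obtain ⟨X₁, h1, h2, h3⟩ := ih
    obtain ⟨X₂, h4, h5, h6⟩ := h.step h1 k h3
    exact ⟨X₂, h4, h2.trans h5, h6⟩

theorem Setup.zeta_le (h : Setup E i₀) :
    zeta G ≤ centralizer ((⊤ : Subgroup G).lowerCentralSeries i₀ : Set G) := by
  refine iSup_le fun j => ?_
  refine le_trans (Z_mono (show j ≤ 0 + max j i₀ + 1 by omega)) (le_trans ?_
    (h.stab (max j i₀) (le_max_right _ _)))
  rw [← commutator_eq_bot_iff_le_centralizer, ← le_bot_iff]
  exact comm_Z_lcs _ 0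

theorem Setup.lnil_W (h : Setup E i₀) {y : G} (hy : y ∉ zeta G) :
    LNil (Subgroup.closure (E ∩ D (zeta G) {y})) := by
  apply lnil_closure
  intro T hT hTS
  by_contra hn
  have hn' : ¬ LNil (Subgroup.closure T) := fun hl => hn (hl T hT Subgroup.subset_closure)
  obtain ⟨j, hj⟩ := exists_Z_of_finite (hT.image fun x => ⁅y, x⁆) (by
    rintro _ ⟨x, hx, rfl⟩
    exact comm_mem_symm (mem_D.1 (hTS hx).2 y rfl))
  apply hy
  apply Z_le_zeta (j + 1)
  apply h.D_big (eg_closure (hTS.trans Set.inter_subset_left)) hn' j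
  rw [D_closure]
  exact mem_D.2 fun x hx => hj ⟨x, hx, rfl⟩

/-- The chain condition modulo the hypercentre. -/
theorem theta {Γ L : Subgroup G} [Γ.Normal] (hζ : zeta G ≤ centralizer (Γ : Set G))
    (hL : LNil L) (hD : ∀ m, D (Z G m) L ≤ Z G (m + 1)) {X : Set G} (hX : X.Finite)
    (hXL : X ⊆ L) (hLT : L ≤ Subgroup.closure X ⊔ Γ)
    (hc1 : centralizer ((Subgroup.closure X ⊓ Γ : Subgroup G) : Set G) ≤
      centralizer ((L ⊓ Γ : Subgroup G) : Set G))
    (hc2 : centralizer ((⁅Subgroup.closure X ⊓ Γ, Subgroup.closure X ⊓ Γ⁆ : Subgroup G) : Set G) ≤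
      centralizer ((⁅L ⊓ Γ, L ⊓ Γ⁆ : Subgroup G) : Set G)) :
    D (zeta G) (Subgroup.closure X : Subgroup G) ≤ D (zeta G) L := by
  set T := Subgroup.closure X with hT
  set S := D (zeta G) T with hS
  set J := L ⊓ Γ with hJ
  set J₀ := T ⊓ Γ with hJ₀
  have hTL : T ≤ L := (closure_le _).2 hXL
  have hJJ : J₀ ≤ J := inf_le_inf_right _ hTL
  have hLTJ : L ≤ T ⊔ J := by
    intro l hl
    have h1 : l ∈ ((T ⊔ Γ : Subgroup G) : Set G) := hLT hl
    rw [mul_normal] at h1
    obtain ⟨t, ht, γ, hγ, rfl⟩ := h1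
    refine mul_mem ((le_sup_left : T ≤ _) ht) ((le_sup_right : J ≤ _) ⟨?_, hγ⟩)
    have := mul_mem (inv_mem (hTL ht)) hl
    simpa using this
  have hST : ⁅S, T⁆ ≤ zeta G := le_D_iff.1 le_rfl
  have hzΓ : ∀ A B : Subgroup G, A ≤ zeta G → B ≤ Γ → ⁅A, B⁆ = ⊥ := by
    intro A B hA hB
    rw [commutator_eq_bot_iff_le_centralizer]
    exact hA.trans (hζ.trans (centralizer_le hB))
  have hSJ₀ : ⁅S, J₀⁆ ≤ zeta G := (commutator_mono le_rfl inf_le_left).trans hST
  have h1 : ⁅⁅J₀, J₀⁆, S⁆ = ⊥ := by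
    apply commutator_commutator_eq_bot_of_rotate
    · exact hzΓ _ _ (by rw [commutator_comm]; exact hSJ₀) inf_le_right
    · exact hzΓ _ _ hSJ₀ inf_le_right
  have h2 : ⁅⁅J, J⁆, S⁆ = ⊥ := by
    rw [commutator_comm, commutator_eq_bot_iff_le_centralizer] at h1 ⊢
    exact h1.trans hc2
  have h3 : ⁅⁅S, J⁆, J₀⁆ = ⊥ := by
    apply commutator_commutator_eq_bot_of_rotate
    · exact le_bot_iff.1 (h2 ▸ commutator_mono (commutator_mono le_rfl hJJ) le_rfl)
    · exact hzΓ _ _ (by rw [commutator_comm]; exact hSJ₀) inf_le_right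
  have h4 : ⁅⁅S, J⁆, J⁆ = ⊥ := by
    rw [commutator_eq_bot_iff_le_centralizer] at h3 ⊢
    exact h3.trans hc1
  have h5 : S ≤ D (zeta G) J := by
    intro g hg
    refine mem_D.2 fun x hx => ?_
    have hPL : Subgroup.closure (insert x X) ≤ L :=
      (closure_le _).2 (Set.insert_subset hx.1 hXL)
    obtain ⟨c, hc⟩ := hL _ (hX.insert x) (Set.insert_subset hx.1 hXL)
    set P := Subgroup.closure (insert x X) with hP
    have hTP : T ≤ P := Subgroup.closure_mono (Set.subset_insert x X)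
    have key : ∀ m n, n + m = c → ⁅S, P.lowerCentralSeries n ⊓ Γ⁆ ≤ Z G m := by
      intro m
      induction m with
      | zero => intro n hn; rw [show n = c by omega, hc]; simp
      | succ m ih =>
        intro n hn
        have hBJ : P.lowerCentralSeries n ⊓ Γ ≤ J :=
          inf_le_inf_right _ ((lowerCentralSeries_le_self P n).trans hPL)
        refine le_trans ?_ (hD m)
        refine le_trans ?_ (D_anti (show (L : Set G) ⊆ (T ⊔ J : Subgroup G) from hLTJ))
        refine le_trans (le_inf ?_ ?_) (D_sup _ _)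
        · rw [le_D_iff]
          apply three
          · rw [commutator_comm]
            refine le_trans (commutator_mono le_rfl ?_) (ih (n + 1) (by omega))
            exact le_inf (commutator_mono inf_le_left hTP)
              ((commutator_mono inf_le_right le_rfl).trans (commutator_le_left _ _))
          · rw [hzΓ _ _ (by rw [commutator_comm]; exact hST) inf_le_right]
            exact bot_le
        · rw [le_D_iff]
          exact le_trans (commutator_mono (commutator_mono le_rfl hBJ) le_rfl) (h4 ▸ bot_le)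
    refine Z_le_zeta c (key c 0 (by simp) (commutator_mem_commutator hg ⟨?_, hx.2⟩))
    exact Subgroup.subset_closure (Set.mem_insert x X)
  exact le_trans (le_inf le_rfl h5) ((D_sup _ _).trans
    (D_anti (show (L : Set G) ⊆ (T ⊔ J : Subgroup G) from hLTJ)))

theorem Setup.exists_stable (h : Setup E i₀) : ∃ X, FB E X ∧ ∀ X', FB E X' → X ⊆ X' →
    D (zeta G) (Subgroup.closure X : Subgroup G) ≤
      D (zeta G) (Subgroup.closure X' : Subgroup G) := by
  by_contra hcon
  push Not at hcon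
  have hnext : ∀ (k : ℕ) (X : Set G), FB E X → ∃ X', FB E X' ∧ X ⊆ X' ∧
      ¬ D (zeta G) (Subgroup.closure X : Subgroup G) ≤
        D (zeta G) (Subgroup.closure X' : Subgroup G) ∧
      ∀ m < k + 1, D (Z G m) (Subgroup.closure X' : Subgroup G) ≤ Z G (m + 1) := by
    intro k X hX
    obtain ⟨X₁, h1, h2, h3⟩ := hcon X hX
    obtain ⟨X₂, h4, h5, h6⟩ := h.levels h1 (k + 1)
    exact ⟨X₂, h4, h2.trans h5, fun hle => h3 (hle.trans (D_anti (Subgroup.closure_mono h5))), h6⟩
  choose! f hf1 hf2 hf3 hf4 using hnext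
  let s : ℕ → Set G := fun n => Nat.rec ∅ (fun k X => f k X) n
  have hs : ∀ n, FB E (s n) := by
    intro n
    induction n with
    | zero => exact h.fb_empty
    | succ n ih => exact hf1 n _ ih
  have hsm : Monotone s := monotone_nat_of_le_succ fun n => hf2 n _ (hs n)
  let I : ℕ → Subgroup G := fun n => Subgroup.closure (s n)
  have hIm : Monotone I := fun a b hab => Subgroup.closure_mono (hsm hab)
  set L := ⨆ n, I n with hL
  have hmemL : ∀ x, x ∈ L ↔ ∃ n, x ∈ I n := fun x => mem_iSup_of_directed hIm.directed_le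
  have hLl : LNil L := by
    intro T hT hTL
    choose! k hk using fun x (hx : x ∈ T) => (hmemL x).1 (hTL hx)
    obtain ⟨n, hn⟩ := (hT.image k).bddAbove
    exact (hs n).2.2.1.2 T hT fun x hx => hIm (hn ⟨x, hx, rfl⟩) (hk x hx)
  have hLD : ∀ m, D (Z G m) L ≤ Z G (m + 1) := fun m =>
    (D_anti (le_iSup I (m + 1))).trans (hf4 m _ (hs m) m (Nat.lt_succ_self m))
  set Γ := (⊤ : Subgroup G).lowerCentralSeries i₀ with hΓ
  obtain ⟨X₀, hX₀, -, htop⟩ := h.fg
  obtain ⟨k₀, hk₀⟩ := acc_lcs hX₀ htop i₀ I hIm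
  obtain ⟨k₁, hk₁⟩ := h.mc.stab (fun n => ((I n ⊓ Γ : Subgroup G) : Set G))
    (fun a b hab => (inf_le_inf_right Γ (hIm hab) : I a ⊓ Γ ≤ I b ⊓ Γ))
  obtain ⟨k₂, hk₂⟩ := h.mc.stab (fun n => ((⁅I n ⊓ Γ, I n ⊓ Γ⁆ : Subgroup G) : Set G))
    (fun a b hab => (commutator_mono (inf_le_inf_right Γ (hIm hab))
      (inf_le_inf_right Γ (hIm hab)) : ⁅I a ⊓ Γ, I a ⊓ Γ⁆ ≤ ⁅I b ⊓ Γ, I b ⊓ Γ⁆))
  set k := max k₀ (max k₁ k₂) with hk
  apply hf3 k _ (hs k)
  refine le_trans ?_ (D_anti (le_iSup I (k + 1)))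
  refine theta (Γ := Γ) h.zeta_le hLl hLD (hs k).1
    (Subgroup.subset_closure.trans (le_iSup I k)) ?_ ?_ ?_
  · exact iSup_le fun n => (hk₀ n).trans (sup_le_sup_right (hIm (le_max_left _ _)) _)
  · refine (hk₁ k (by omega)).trans (centralizer_le ?_)
    rintro x ⟨hx1, hx2⟩
    obtain ⟨n, hn⟩ := (hmemL x).1 hx1
    exact Set.mem_iUnion.2 ⟨n, hn, hx2⟩
  · refine (hk₂ k (by omega)).trans ?_
    rw [Subgroup.commutator_def (L ⊓ Γ), centralizer_closure]
    apply centralizer_le
    rintro _ ⟨a, ⟨ha1, ha2⟩, b, ⟨hb1, hb2⟩, rfl⟩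
    obtain ⟨n, hn⟩ := (hmemL a).1 ha1
    obtain ⟨m, hm⟩ := (hmemL b).1 hb1
    exact Set.mem_iUnion.2 ⟨max n m, commutator_mem_commutator
      ⟨hIm (le_max_left _ _) hn, ha2⟩ ⟨hIm (le_max_right _ _) hm, hb2⟩⟩

theorem Setup.false (h : Setup E i₀) : False := by
  obtain ⟨X, hX, hst⟩ := h.exists_stable
  obtain ⟨y, hy, hyD⟩ : ∃ y, y ∉ zeta G ∧ y ∈ D (zeta G) (Subgroup.closure X : Subgroup G) := by
    by_cases hle : Subgroup.closure X ≤ zeta G
    · have : ¬ (⊤ : Subgroup G) ≤ zeta G := fun ht => h.nl (lnil_zeta.mono ht)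
      obtain ⟨y, -, hy⟩ := SetLike.not_le_iff_exists.1 this
      exact ⟨y, hy, mem_D.2 fun x hx =>
        commutator_le_right ⊤ (zeta G) (commutator_mem_commutator trivial (hle hx))⟩
    · obtain ⟨z, -, h1, h2⟩ := exists_center_mod
        (hX.2.2.1.2 X hX.1 Subgroup.subset_closure) hle
      exact ⟨z, h1, h2⟩
  refine h.useKey hX (zeta G) hst ((h.lnil_W hy).mono (Subgroup.closure_mono ?_))
  exact Set.inter_subset_inter_right _ (D_anti (by simpa using hyD))

end Pool.Agent.MP_b9f959_al.H73
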