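import Pool.Agent.MP_b9f959_al.H73.Key

namespace Pool.Agent.MP_b9f959_al.H73

open Subgroup hiding subset_closure map_eq_bot_iff upperCentralSeries mem_upperCentralSeries_succ_iff
  lowerCentralSeries_succ upperCentralSeries_zero lowerCentralSeries closure closure_mono
  lowerCentralSeries_antitone lowerCentralSeries_zero
open scoped commutatorElement

universe u
variable {G : Type u} [Group G]

/-- Ascending chain condition modulo `N`. -/
def ACC (N : Subgroup G) : Prop :=
  ∀ I : ℕ → Subgroup G, Monotone I → ∃ k₀, ∀ k, I k ≤ I k₀ ⊔ N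

theorem acc_step {N : Subgroup G} [N.Normal] {y : G} [(N ⊔ zpowers y).Normal]
    (h : ACC (N ⊔ zpowers y)) : ACC N := by
  intro I hI
  obtain ⟨k₀, hk₀⟩ := h I hI
  let S : ℕ →o Submodule ℤ ℤ :=
    { toFun := fun k =>
        { carrier := {n | y ^ n ∈ I k ⊔ N}
          add_mem' := fun {a b} ha hb => by
            simp only [Set.mem_ofPred_eq, zpow_add] at ha hb ⊢; exact mul_mem ha hb
          zero_mem' := by simp
          smul_mem' := fun c a ha => by
            simp only [Set.mem_ofPred_eq, smul_eq_mul] at ha ⊢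
            rw [mul_comm, zpow_mul]; exact zpow_mem ha c }
      monotone' := fun a b hab n hn => sup_le_sup_right (hI hab) N hn }
  obtain ⟨k₁, hk₁⟩ := monotone_stabilizes_iff_noetherian.2 (inferInstance : IsNoetherian ℤ ℤ) S
  refine ⟨max k₀ k₁, fun k l hl => ?_⟩
  have h1 : l ∈ ((I k₀ ⊔ (N ⊔ zpowers y) : Subgroup G) : Set G) := hk₀ k hl
  rw [mul_normal] at h1
  obtain ⟨t, ht, m, hm, rfl⟩ := h1
  rw [normal_mul] at hm
  obtain ⟨ν, hν, _, ⟨n, rfl⟩, rfl⟩ := hm
  have h2 : y ^ n ∈ I (max (max k k₀) k₁) ⊔ N := by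
    have : y ^ n = ν⁻¹ * (t⁻¹ * (t * (ν * y ^ n))) := by group
    rw [this]
    refine mul_mem ((le_sup_right : N ≤ _) (inv_mem hν)) ((le_sup_left : I _ ≤ _) (mul_mem
      (inv_mem (hI (le_max_of_le_left (le_max_right _ _)) ht))
      (hI (le_max_of_le_left (le_max_left _ _)) hl)))
  have h3 : n ∈ S k₁ := by
    rw [hk₁ _ (le_max_right (max k k₀) k₁)]; exact h2
  have h4 : y ^ n ∈ I (max k₀ k₁) ⊔ N := sup_le_sup_right (hI (le_max_right _ _)) N h3
  exact mul_mem ((le_sup_left : I _ ≤ _) (hI (le_max_left _ _) ht))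
    (mul_mem ((le_sup_right : N ≤ _) hν) h4)

theorem normal_of_between {n : ℕ} {N : Subgroup G}
    (h1 : (⊤ : Subgroup G).lowerCentralSeries (n + 1) ≤ N)
    (h2 : N ≤ (⊤ : Subgroup G).lowerCentralSeries n) : N.Normal := by
  rw [← commutator_top_right_le_iff]
  exact le_trans (commutator_mono h2 le_rfl) h1

theorem acc_layer {n : ℕ} {Y : Set G} (hY : Y.Finite)
    (hYn : Y ⊆ (⊤ : Subgroup G).lowerCentralSeries n)
    (h : ACC ((⊤ : Subgroup G).lowerCentralSeries (n + 1) ⊔ Subgroup.closure Y)) :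
    ACC ((⊤ : Subgroup G).lowerCentralSeries (n + 1)) := by
  induction Y, hY using Set.Finite.induction_on with
  | empty => simpa using h
  | @insert a s _ _ ih =>
    have hs : s ⊆ (⊤ : Subgroup G).lowerCentralSeries n :=
      fun x hx => hYn (Set.mem_insert_of_mem _ hx)
    apply ih hs
    have hle : (⊤ : Subgroup G).lowerCentralSeries (n + 1) ⊔ Subgroup.closure s ≤
        (⊤ : Subgroup G).lowerCentralSeries n :=
      sup_le ((⊤ : Subgroup G).lowerCentralSeries_antitone (Nat.le_succ n)) ((closure_le _).2 hs)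
    have := normal_of_between le_sup_left hle
    have := normal_of_between (N := (⊤ : Subgroup G).lowerCentralSeries (n + 1) ⊔
      Subgroup.closure s ⊔ zpowers a) (le_sup_left.trans le_sup_left)
      (sup_le hle (zpowers_le.2 (hYn (Set.mem_insert a s))))
    apply acc_step (y := a)
    rwa [Set.insert_eq, Subgroup.closure_union, ← zpowers_eq_closure, sup_comm (zpowers a),
      ← sup_assoc] at h

theorem fg_layer {X : Set G} (hX : X.Finite) (htop : Subgroup.closure X = ⊤) (n : ℕ) :
    ∃ Y : Set G, Y.Finite ∧ Y ⊆ (⊤ : Subgroup G).lowerCentralSeries n ∧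
      (⊤ : Subgroup G).lowerCentralSeries n ≤
        (⊤ : Subgroup G).lowerCentralSeries (n + 1) ⊔ Subgroup.closure Y := by
  induction n with
  | zero => exact ⟨X, hX, by simp, by rw [htop]; simp⟩
  | succ n ih =>
    obtain ⟨Y, hY, hYn, hle⟩ := ih
    have hsub : Set.image2 (fun y x => ⁅y, x⁆) Y X ⊆
        (⊤ : Subgroup G).lowerCentralSeries (n + 1) := by
      rintro _ ⟨y, hy, x, _, rfl⟩
      exact commutator_mem_commutator (hYn hy) trivial
    refine ⟨Set.image2 (fun y x => ⁅y, x⁆) Y X, hY.image2 _ hX, hsub, ?_⟩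
    have := normal_of_between (N := (⊤ : Subgroup G).lowerCentralSeries (n + 1 + 1) ⊔
      Subgroup.closure (Set.image2 (fun y x => ⁅y, x⁆) Y X)) le_sup_left
      (sup_le ((⊤ : Subgroup G).lowerCentralSeries_antitone (Nat.le_succ _))
        ((closure_le _).2 hsub))
    refine le_D_iff.1 (hle.trans (sup_le ?_ ?_))
    · exact le_D_iff.2 le_sup_left
    · refine (closure_le _).2 fun y hy => ?_
      have hD : ∀ (N : Subgroup G) [N.Normal], D N X ≤ D N ((⊤ : Subgroup G) : Set G) := by
        intro N _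
        rw [← htop, D_closure]
      apply hD
      exact mem_D.2 fun x hx => (le_sup_right : Subgroup.closure _ ≤ _)
        (Subgroup.subset_closure ⟨y, hy, x, hx, rfl⟩)

theorem acc_lcs {X : Set G} (hX : X.Finite) (htop : Subgroup.closure X = ⊤) (n : ℕ) :
    ACC ((⊤ : Subgroup G).lowerCentralSeries n) := by
  induction n with
  | zero => intro I _; exact ⟨0, fun k => by simp⟩
  | succ n ih =>
    obtain ⟨Y, hY, hYn, hle⟩ := fg_layer hX htop n
    apply acc_layer hY hYn
    intro I hI
    obtain ⟨k₀, hk₀⟩ := ih I hI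
    exact ⟨k₀, fun k => (hk₀ k).trans (sup_le_sup_left hle _)⟩

/-! Chain conditions on centralizers. -/

theorem IsMc.exists_min (hG : IsMc G) {ι : Type*} (S : Set ι) (hS : S.Nonempty) (f : ι → Set G) :
    ∃ i ∈ S, ∀ j ∈ S, centralizer (f j) ≤ centralizer (f i) →
      centralizer (f i) ≤ centralizer (f j) := by
  by_contra hcon
  push Not at hcon
  choose! g hg1 hg2 hg3 using hcon
  obtain ⟨i₀, hi₀⟩ := hS
  let s : ℕ → ι := fun n => g^[n] i₀
  have hs : ∀ n, s n ∈ S := by
    intro n
    induction n with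
    | zero => exact hi₀
    | succ n ih => simp only [s, Function.iterate_succ_apply']; exact hg1 _ ih
  have hsucc : ∀ n, s (n + 1) = g (s n) := fun n => Function.iterate_succ_apply' g n i₀
  have hanti : Antitone fun n => centralizer (f (s n)) :=
    antitone_nat_of_succ_le fun n => by rw [hsucc]; exact hg2 _ (hs n)
  obtain ⟨X₀, hX₀, hfin, heq⟩ := hG (⋃ n, f (s n))
  obtain ⟨N, hN⟩ : ∃ N, centralizer (f (s N)) ≤ centralizer X₀ := by
    choose k hk using fun x : X₀ => Set.mem_iUnion.1 (hX₀ x.2)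
    have : Finite X₀ := hfin
    obtain ⟨N, hN⟩ := (Set.finite_range k).bddAbove
    refine ⟨N, fun c hc => mem_centralizer_iff.2 fun x hx => ?_⟩
    exact mem_centralizer_iff.1 (hanti (hN ⟨⟨x, hx⟩, rfl⟩) hc) x (hk ⟨x, hx⟩)
  apply hg3 _ (hs N)
  rw [← hsucc]
  exact hN.trans (heq ▸ centralizer_le (Set.subset_iUnion (fun n => f (s n)) (N + 1)))

theorem IsMc.exists_max (hG : IsMc G) {ι : Type*} (S : Set ι) (hS : S.Nonempty) (f : ι → Set G) :
    ∃ i ∈ S, ∀ j ∈ S, centralizer (f i) ≤ centralizer (f j) →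
      centralizer (f j) ≤ centralizer (f i) := by
  obtain ⟨i, hi, h⟩ := hG.exists_min S hS (fun i => (centralizer (f i) : Set G))
  refine ⟨i, hi, fun j hj hij => ?_⟩
  have h1 := h j hj (centralizer_le hij)
  intro c hc
  refine mem_centralizer_iff.2 fun x hx => ?_
  have hx' : x ∈ centralizer (centralizer (f i) : Set G) :=
    mem_centralizer_iff.2 fun y hy => (mem_centralizer_iff.1 hy x hx).symm
  exact (mem_centralizer_iff.1 (h1 hx') c hc).symm

theorem IsMc.subgroup (hG : IsMc G) (K : Subgroup G) : IsMc K := by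
  intro X
  obtain ⟨X₀, hX₀, hfin, heq⟩ := hG (K.subtype '' X)
  obtain ⟨T, hTX, hT, rfl⟩ := Set.Finite.exists_subset_finite_image_eq hfin hX₀
  refine ⟨T, hTX, hT, le_antisymm (centralizer_le hTX) fun c hc => ?_⟩
  have : (c : G) ∈ centralizer (K.subtype '' T) := by
    refine mem_centralizer_iff.2 ?_
    rintro _ ⟨x, hx, rfl⟩
    exact congrArg Subtype.val (mem_centralizer_iff.1 hc x hx)
  rw [← heq] at this
  exact mem_centralizer_iff.2 fun x hx =>
    Subtype.ext (mem_centralizer_iff.1 this x ⟨x, hx, rfl⟩)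

/-- Along an increasing sequence of sets the centralizer of the union is attained. -/
theorem IsMc.stab (hG : IsMc G) (f : ℕ → Set G) (hf : Monotone f) :
    ∃ N, ∀ k ≥ N, centralizer (f k) ≤ centralizer (⋃ n, f n) := by
  obtain ⟨N, -, hN⟩ := hG.exists_min Set.univ Set.univ_nonempty f
  refine ⟨N, fun k hk c hc => mem_centralizer_iff.2 fun x hx => ?_⟩
  obtain ⟨n, hn⟩ := Set.mem_iUnion.1 hx
  have h1 := hN (max n N) trivial (centralizer_le (hf (le_max_right _ _)))
  exact mem_centralizer_iff.1 (h1 (centralizer_le (hf hk) hc)) x (hf (le_max_left _ _) hn)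

end Pool.Agent.MP_b9f959_al.H73
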